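import Mathlib

/-! Free groups are residually finite `p`-groups (for infinitely many primes `p`). -/

set_option autoImplicit false

namespace Pool.Agent.PFV

/-- syllable lists: nonzero exponents, adjacent letters distinct -/
def Syl {ι : Type} (L : List (ι × ℤ)) : Prop :=
  (∀ p ∈ L, p.2 ≠ 0) ∧ L.IsChain (fun p q => p.1 ≠ q.1)

/-- the product of the syllables -/
def sprod {ι : Type} {H : Type} [Group H] (f : ι → H) (L : List (ι × ℤ)) : H :=
  (L.map (fun p => f p.1 ^ p.2)).prod

theorem sprod_cons {ι : Type} {H : Type} [Group H] (f : ι → H) (p : ι × ℤ) (L : List (ι × ℤ)) :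
    sprod f (p :: L) = f p.1 ^ p.2 * sprod f L := by
  simp [sprod]

theorem syl_tail {ι : Type} {p : ι × ℤ} {L : List (ι × ℤ)} (h : Syl (p :: L)) : Syl L :=
  ⟨fun q hq => h.1 q (List.mem_cons_of_mem _ hq), h.2.tail⟩

theorem syl_step {ι : Type} (x : ι) (c : ℤ) (hc : c ≠ 0) (L : List (ι × ℤ)) (hL : Syl L) :
    ∃ L', Syl L' ∧ sprod FreeGroup.of L' = FreeGroup.of x ^ c * sprod FreeGroup.of L := by
  classical
  cases L with
  | nil =>
    refine ⟨[(x, c)], ⟨?_, List.isChain_singleton _⟩, by simp [sprod]⟩
    intro p hp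
    rw [List.mem_singleton] at hp
    rw [hp]; exact hc
  | cons q L =>
    obtain ⟨i, a⟩ := q
    by_cases hix : i = x
    · subst hix
      by_cases hca : c + a = 0
      · refine ⟨L, syl_tail hL, ?_⟩
        rw [sprod_cons, ← mul_assoc, ← zpow_add, hca, zpow_zero, one_mul]
      · refine ⟨(i, c + a) :: L, ⟨?_, ?_⟩, ?_⟩
        · intro p hp
          rcases List.mem_cons.1 hp with h | h
          · rw [h]; exact hca
          · exact hL.1 p (List.mem_cons_of_mem _ h)
        · cases L with
          | nil => exact List.isChain_singleton _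
          | cons r L =>
            have h := hL.2
            rw [List.isChain_cons_cons] at h ⊢
            exact ⟨h.1, h.2⟩
        · rw [sprod_cons, sprod_cons, ← mul_assoc, ← zpow_add]
    · refine ⟨(x, c) :: (i, a) :: L, ⟨?_, ?_⟩, ?_⟩
      · intro p hp
        rcases List.mem_cons.1 hp with h | h
        · rw [h]; exact hc
        · exact hL.1 p h
      · rw [List.isChain_cons_cons]
        exact ⟨fun h => hix h.symm, hL.2⟩
      · rw [sprod_cons]

theorem exists_syl {ι : Type} (w : FreeGroup ι) : ∃ L, Syl L ∧ sprod FreeGroup.of L = w := by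
  induction w using Quot.inductionOn with
  | _ l =>
    change ∃ L, Syl L ∧ sprod FreeGroup.of L = FreeGroup.mk l
    induction l with
    | nil => exact ⟨[], ⟨by simp, List.isChain_nil⟩, rfl⟩
    | cons q l ih =>
      obtain ⟨L, hL, hw⟩ := ih
      obtain ⟨x, b⟩ := q
      have h1 : (FreeGroup.mk ((x, b) :: l) : FreeGroup ι) = FreeGroup.mk [(x, b)] * FreeGroup.mk l := by
        rw [FreeGroup.mul_mk]; rfl
      cases b with
      | true =>
        obtain ⟨L', hL', hw'⟩ := syl_step x 1 one_ne_zero L hL
        refine ⟨L', hL', ?_⟩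
        rw [hw', hw, h1, zpow_one]
        rfl
      | false =>
        obtain ⟨L', hL', hw'⟩ := syl_step x (-1) (by norm_num) L hL
        refine ⟨L', hL', ?_⟩
        rw [hw', hw, h1, zpow_neg, zpow_one]
        rfl

theorem ring1 {R : Type} [Ring R] (x : R) : (1 + x) * (1 - x) = 1 - x * x := by noncomm_ring

theorem ring2 {R : Type} [Ring R] (x : R) : (1 - x) * (1 + x) = 1 - x * x := by noncomm_ring

theorem ring3 {R : Type} [Ring R] (x y : R) : (1 + x) * (1 + y) = 1 + (x + y) + x * y := by noncomm_ring

section Mat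

variable {ι : Type} [DecidableEq ι] (p : ℕ) (L : List (ι × ℤ))

/-- the nilpotent matrices -/
def NN (i : ι) : Matrix (Fin (L.length + 1)) (Fin (L.length + 1)) (ZMod p) :=
  fun s t => if (t : ℕ) = s + 1 ∧ (L[(s : ℕ)]?).map Prod.fst = some i then 1 else 0

theorem NN_sq (hL : Syl L) (i : ι) : NN p L i * NN p L i = 0 := by
  ext s t
  rw [Matrix.mul_apply, Matrix.zero_apply]
  refine Finset.sum_eq_zero fun u _ => ?_
  unfold NN
  by_cases h1 : (u : ℕ) = s + 1 ∧ (L[(s : ℕ)]?).map Prod.fst = some i
  · by_cases h2 : (t : ℕ) = u + 1 ∧ (L[(u : ℕ)]?).map Prod.fst = some i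
    · exfalso
      obtain ⟨h1a, h1b⟩ := h1
      obtain ⟨h2a, h2b⟩ := h2
      rw [h1a] at h2b
      rw [Option.map_eq_some_iff] at h1b h2b
      obtain ⟨a, ha, hai⟩ := h1b
      obtain ⟨b, hb, hbi⟩ := h2b
      rw [List.getElem?_eq_some_iff] at ha hb
      obtain ⟨ha1, ha2⟩ := ha
      obtain ⟨hb1, hb2⟩ := hb
      have := (List.isChain_iff_getElem.1 hL.2) s (by omega)
      rw [ha2, hb2, hai, hbi] at this
      exact this rfl
    · rw [if_neg h2, mul_zero]
  · rw [if_neg h1, zero_mul]

theorem NN_smul (hL : Syl L) (i : ι) (a b : ZMod p) : (a • NN p L i) * (b • NN p L i) = 0 := by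
  rw [Matrix.smul_mul, Matrix.mul_smul, NN_sq p L hL i, smul_zero, smul_zero]

/-- the units `1 + a N_i` -/
def UU (hL : Syl L) (i : ι) (a : ZMod p) :
    (Matrix (Fin (L.length + 1)) (Fin (L.length + 1)) (ZMod p))ˣ where
  val := 1 + a • NN p L i
  inv := 1 - a • NN p L i
  val_inv := by
    have h := NN_smul p L hL i a a
    have : (1 + a • NN p L i) * (1 - a • NN p L i) = 1 - (a • NN p L i) * (a • NN p L i) := by
      exact ring1 _
    rw [this, h, sub_zero]
  inv_val := by
    have h := NN_smul p L hL i a a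
    have : (1 - a • NN p L i) * (1 + a • NN p L i) = 1 - (a • NN p L i) * (a • NN p L i) := by
      exact ring2 _
    rw [this, h, sub_zero]

theorem UU_mul (hL : Syl L) (i : ι) (a b : ZMod p) : UU p L hL i a * UU p L hL i b = UU p L hL i (a + b) := by
  apply Units.ext
  change (1 + a • NN p L i) * (1 + b • NN p L i) = 1 + (a + b) • NN p L i
  have h := NN_smul p L hL i a b
  have e : (1 + a • NN p L i) * (1 + b • NN p L i) =
      1 + (a • NN p L i + b • NN p L i) + (a • NN p L i) * (b • NN p L i) := ring3 _ _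
  rw [e, h, add_smul, add_zero]

theorem UU_zpow (hL : Syl L) (i : ι) (a : ℤ) : UU p L hL i 1 ^ a = UU p L hL i (a : ZMod p) := by
  have h0 : UU p L hL i 0 = 1 := by
    apply Units.ext
    change (1 : Matrix _ _ _) + (0 : ZMod p) • NN p L i = 1
    rw [zero_smul, add_zero]
  let f : Multiplicative ℤ →* (Matrix (Fin (L.length + 1)) (Fin (L.length + 1)) (ZMod p))ˣ :=
    { toFun := fun z => UU p L hL i ((Multiplicative.toAdd z : ℤ) : ZMod p)
      map_one' := by simpa using h0
      map_mul' := by
        intro x y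
        rw [UU_mul, toAdd_mul, Int.cast_add] }
  have h1 := map_zpow f (Multiplicative.ofAdd (1 : ℤ)) a
  have h2 : f (Multiplicative.ofAdd (1 : ℤ)) = UU p L hL i 1 := by
    change UU p L hL i (((1 : ℤ)) : ZMod p) = _
    rw [Int.cast_one]
  rw [← h2, ← h1, ← ofAdd_zsmul]
  change UU p L hL i (((a • (1 : ℤ) : ℤ)) : ZMod p) = _
  rw [smul_eq_mul, mul_one]

/-- the last column of the product over a suffix -/
theorem col (hL : Syl L) : ∀ (L2 L1 : List (ι × ℤ)), L = L1 ++ L2 →
    (∀ u : Fin (L.length + 1), (u : ℕ) < L1.length →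
      (sprod (fun i => UU p L hL i 1) L2).val u (Fin.last _) = 0) ∧
    (∀ u : Fin (L.length + 1), (u : ℕ) = L1.length →
      (sprod (fun i => UU p L hL i 1) L2).val u (Fin.last _) = (L2.map (fun q => (q.2 : ZMod p))).prod) := by
  intro L2
  induction L2 with
  | nil =>
    intro L1 h
    have hlen : L1.length = L.length := by rw [h]; simp
    constructor
    · intro u hu
      change (1 : Matrix (Fin (L.length + 1)) (Fin (L.length + 1)) (ZMod p)) u (Fin.last _) = 0
      apply Matrix.one_apply_ne
      intro h0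
      rw [h0, Fin.val_last] at hu
      omega
    · intro u hu
      change (1 : Matrix (Fin (L.length + 1)) (Fin (L.length + 1)) (ZMod p)) u (Fin.last _) = 1
      have : u = Fin.last _ := Fin.ext (by rw [Fin.val_last]; omega)
      rw [this, Matrix.one_apply_eq]
  | cons q L2 ih =>
    intro L1 h
    obtain ⟨h1, h2⟩ := ih (L1 ++ [q]) (by rw [h]; simp)
    rw [List.length_append, List.length_singleton] at h1 h2
    have hlen : L1.length + 1 ≤ L.length := by rw [h]; simp
    have hval : ∀ u : Fin (L.length + 1), (sprod (fun i => UU p L hL i 1) (q :: L2)).val u (Fin.last _) =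
        (sprod (fun i => UU p L hL i 1) L2).val u (Fin.last _) +
        (q.2 : ZMod p) * ∑ t, NN p L q.1 u t * (sprod (fun i => UU p L hL i 1) L2).val t (Fin.last _) := by
      intro u
      rw [sprod_cons, UU_zpow, Units.val_mul,
        show (UU p L hL q.1 (q.2 : ZMod p)).val = 1 + (q.2 : ZMod p) • NN p L q.1 from rfl,
        add_mul, one_mul, Matrix.add_apply, Matrix.smul_mul, Matrix.smul_apply, Matrix.mul_apply, smul_eq_mul]
    constructor
    · intro u hu
      rw [hval, h1 u (by omega), zero_add]
      rw [Finset.sum_eq_zero, mul_zero]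
      intro t _
      unfold NN
      by_cases ht : (t : ℕ) = u + 1
      · rw [h1 t (by omega), mul_zero]
      · rw [if_neg (fun hh => ht hh.1), zero_mul]
    · intro u hu
      rw [hval, h1 u (by omega), zero_add, List.map_cons, List.prod_cons]
      congr 1
      have hu1 : (u : ℕ) + 1 < L.length + 1 := by omega
      rw [Finset.sum_eq_single (⟨u + 1, hu1⟩ : Fin (L.length + 1))]
      · rw [h2 _ (by simp; omega)]
        have : NN p L q.1 u ⟨u + 1, hu1⟩ = 1 := by
          unfold NN
          rw [if_pos]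
          refine ⟨rfl, ?_⟩
          have e : L[(u : ℕ)]? = some q := by
            have e0 := congrArg (fun l : List (ι × ℤ) => l[L1.length]?) h
            rw [hu]
            simpa using e0
          rw [e]; rfl
        rw [this, one_mul]
      · intro t _ ht
        unfold NN
        rw [if_neg, zero_mul]
        rintro ⟨h3, _⟩
        exact ht (Fin.ext h3)
      · intro hh
        exact absurd (Finset.mem_univ _) hh

/-- strictly upper triangular -/
def SU {n : ℕ} {R : Type} [Zero R] (j : ℕ) (M : Matrix (Fin n) (Fin n) R) : Prop :=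
  ∀ s t : Fin n, (t : ℕ) < s + j → M s t = 0

theorem SU_mul {n : ℕ} {R : Type} [Semiring R] {j k : ℕ} {M N : Matrix (Fin n) (Fin n) R}
    (hM : SU j M) (hN : SU k N) : SU (j + k) (M * N) := by
  intro s t h
  rw [Matrix.mul_apply]
  refine Finset.sum_eq_zero fun u _ => ?_
  by_cases h1 : (u : ℕ) < s + j
  · rw [hM s u h1, zero_mul]
  · rw [hN u t (by omega), mul_zero]

theorem SU_mono {n : ℕ} {R : Type} [Zero R] {j k : ℕ} (h : k ≤ j) {M : Matrix (Fin n) (Fin n) R}
    (hM : SU j M) : SU k M := fun s t h1 => hM s t (by omega)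

theorem SU_pow {n : ℕ} {R : Type} [Semiring R] {M : Matrix (Fin n) (Fin n) R}
    (hM : SU 1 M) (j : ℕ) : SU j (M ^ j) := by
  induction j with
  | zero =>
    intro s t h
    rw [pow_zero]
    apply Matrix.one_apply_ne
    rintro rfl
    omega
  | succ j ih =>
    rw [pow_succ]
    exact SU_mul ih hM

end Mat

/-- For `w ≠ 1` in a free group and any `N0` there are a prime `p > N0`, a finite `p`-group `Θ` and a
homomorphism `τ` to `Θ` with `τ w ≠ 1`. -/
theorem exists_pgroup {ι : Type} [DecidableEq ι] (w : FreeGroup ι) (hw : w ≠ 1) (N0 : ℕ) :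
    ∃ (p : ℕ) (_ : p.Prime) (Θ : Type) (_ : Group Θ) (_ : Finite Θ) (_ : IsPGroup p Θ)
      (τ : FreeGroup ι →* Θ), N0 < p ∧ τ w ≠ 1 := by
  obtain ⟨L, hL, hLw⟩ := exists_syl w
  obtain ⟨p, hp1, hp⟩ := Nat.exists_infinite_primes (N0 + 1 + (L.map (fun q => q.2.natAbs)).sum)
  have : Fact p.Prime := ⟨hp⟩
  let σ : FreeGroup ι →* (Matrix (Fin (L.length + 1)) (Fin (L.length + 1)) (ZMod p))ˣ :=
    FreeGroup.lift (fun i => UU p L hL i 1)
  have hσ : ∀ L' : List (ι × ℤ), σ (sprod FreeGroup.of L') = sprod (fun i => UU p L hL i 1) L' := by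
    intro L'
    simp only [sprod, map_list_prod, List.map_map]
    congr 1
    apply List.map_congr_left
    intro q _
    simp [σ]
  have hne : σ w ≠ 1 := by
    intro h0
    have h1 := (col p L hL L [] rfl).2 0 rfl
    rw [← hσ, hLw, h0] at h1
    have hLne : L ≠ [] := by
      rintro rfl
      exact hw hLw.symm
    have h2 : (1 : Matrix (Fin (L.length + 1)) (Fin (L.length + 1)) (ZMod p)) 0 (Fin.last _) = 0 := by
      apply Matrix.one_apply_ne
      intro h
      have := congrArg Fin.val h
      rw [Fin.val_last] at this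
      exact hLne (List.length_eq_zero_iff.1 this.symm)
    rw [Units.val_one, h2] at h1
    have h3 := h1.symm
    rw [List.prod_eq_zero_iff, List.mem_map] at h3
    obtain ⟨q, hq, hq0⟩ := h3
    rw [ZMod.intCast_zmod_eq_zero_iff_dvd] at hq0
    have h4 := Int.natAbs_dvd_natAbs.2 hq0
    rw [Int.natAbs_natCast] at h4
    have h5 : q.2.natAbs ≤ (L.map (fun q => q.2.natAbs)).sum :=
      List.single_le_sum (by simp) _ (List.mem_map.2 ⟨q, hq, rfl⟩)
    have h6 : 0 < q.2.natAbs := Int.natAbs_pos.2 (hL.1 q hq)
    have := Nat.le_of_dvd h6 h4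
    omega
  have hSU : ∀ g : FreeGroup ι, SU 1 ((σ g).val - 1) := by
    have hN : ∀ (i : ι) (a : ZMod p), SU 1 ((UU p L hL i a).val - 1) := by
      intro i a s t hst
      change ((1 + a • NN p L i) - 1) s t = 0
      rw [add_sub_cancel_left, Matrix.smul_apply]
      unfold NN
      rw [if_neg, smul_zero]
      rintro ⟨h, _⟩
      omega
    have hmul : ∀ a b : (Matrix (Fin (L.length + 1)) (Fin (L.length + 1)) (ZMod p))ˣ,
        SU 1 (a.val - 1) → SU 1 (b.val - 1) → SU 1 ((a * b).val - 1) := by
      intro a b ha hb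
      have e : (a * b).val - 1 = (a.val - 1) * (b.val - 1) + (a.val - 1) + (b.val - 1) := by
        rw [Units.val_mul]; noncomm_ring
      rw [e]
      intro s t hst
      rw [Matrix.add_apply, Matrix.add_apply, ha s t hst, hb s t hst,
        SU_mono (by omega) (SU_mul ha hb) s t hst]
      simp
    intro g
    induction g using FreeGroup.induction_on with
    | C1 => intro s t _; simp
    | of i =>
      simp only [σ, FreeGroup.lift_apply_of]
      exact hN i 1
    | inv_of i _ =>
      simp only [σ, map_inv, FreeGroup.lift_apply_of]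
      have : (UU p L hL i 1)⁻¹ = UU p L hL i (-1) := by
        rw [inv_eq_iff_mul_eq_one, UU_mul, add_neg_cancel]
        apply Units.ext
        change (1 : Matrix _ _ _) + (0 : ZMod p) • NN p L i = 1
        rw [zero_smul, add_zero]
      rw [this]
      exact hN i (-1)
    | mul a b ha hb =>
      rw [map_mul]
      exact hmul _ _ ha hb
  refine ⟨p, hp, σ.range, inferInstance, inferInstance, ?_, σ.rangeRestrict, by omega, ?_⟩
  · rintro ⟨_, g, rfl⟩
    refine ⟨L.length + 1, ?_⟩
    apply Subtype.ext
    apply Units.ext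
    change ((σ g).val) ^ (p ^ (L.length + 1)) = 1
    have e : (σ g).val = 1 + ((σ g).val - 1) := by abel
    rw [e, add_pow_char_pow_of_commute _ _ (Commute.one_left _), one_pow]
    have h7 : ((σ g).val - 1) ^ (p ^ (L.length + 1)) = 0 := by
      have h8 := SU_pow (hSU g) (p ^ (L.length + 1))
      ext s t
      rw [Matrix.zero_apply]
      apply h8
      have : L.length + 1 < p ^ (L.length + 1) := Nat.lt_pow_self hp.one_lt
      have := t.2
      omega
    rw [h7, add_zero]
  · intro h
    apply hne
    have := congrArg Subtype.val h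
    simpa using this

end Pool.Agent.PFV
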