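import Mathlib

/-! Verbal subgroups and the abstract form of the groups `⟨x, y, z | z^k = x v(x, y)⟩`. -/

set_option autoImplicit false

namespace Pool.Agent.PFV

open scoped commutatorElement

/-- the verbal subgroup of `H` for the set `W` of laws -/
def verbal (W : Set (FreeGroup ℕ)) (H : Type) [Group H] : Subgroup H :=
  Subgroup.closure {h | ∃ w ∈ W, ∃ φ : FreeGroup ℕ →* H, φ w = h}

theorem map_verbal_le {H H' : Type} [Group H] [Group H'] (W : Set (FreeGroup ℕ)) (f : H →* H') :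
    (verbal W H).map f ≤ verbal W H' := by
  unfold verbal
  rw [MonoidHom.map_closure, Subgroup.closure_le]
  rintro _ ⟨_, ⟨w, hw, φ, rfl⟩, rfl⟩
  exact Subgroup.subset_closure ⟨w, hw, f.comp φ, rfl⟩

theorem mem_verbal_map {H H' : Type} [Group H] [Group H'] {W : Set (FreeGroup ℕ)} (f : H →* H') {h : H}
    (hh : h ∈ verbal W H) : f h ∈ verbal W H' :=
  map_verbal_le W f ⟨h, hh, rfl⟩

instance verbal_normal (W : Set (FreeGroup ℕ)) (H : Type) [Group H] : (verbal W H).Normal :=
  ⟨fun n hn g => by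
    have := mem_verbal_map (MulAut.conj g).toMonoidHom hn
    simpa using this⟩

theorem verbal_surj {H H' : Type} [Group H] [Group H'] (W : Set (FreeGroup ℕ)) (f : H →* H')
    (hf : Function.Surjective f) : verbal W H' ≤ (verbal W H).map f := by
  unfold verbal
  rw [Subgroup.closure_le]
  rintro _ ⟨w, hw, φ, rfl⟩
  choose g hg using fun n : ℕ => hf (φ (FreeGroup.of n))
  refine ⟨FreeGroup.lift g w, Subgroup.subset_closure ⟨w, hw, FreeGroup.lift g, rfl⟩, ?_⟩
  have : f.comp (FreeGroup.lift g) = φ := by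
    ext n
    simp [hg]
  rw [← this]
  rfl

theorem verbal_quot (W : Set (FreeGroup ℕ)) (H : Type) [Group H] :
    verbal W (H ⧸ verbal W H) = ⊥ := by
  rw [eq_bot_iff]
  refine (verbal_surj W (QuotientGroup.mk' (verbal W H)) (QuotientGroup.mk'_surjective _)).trans ?_
  rintro _ ⟨h, hh, rfl⟩
  rw [Subgroup.mem_bot]
  exact (QuotientGroup.eq_one_iff h).2 hh

/-- every homomorphism to a group in the variety kills the verbal subgroup -/
theorem verbal_le_ker {H H' : Type} [Group H] [Group H'] {W : Set (FreeGroup ℕ)} (f : H →* H')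
    (h' : verbal W H' = ⊥) : verbal W H ≤ f.ker := by
  intro h hh
  have := mem_verbal_map f hh
  rw [h', Subgroup.mem_bot] at this
  exact this

theorem verbal_mono {W V : Set (FreeGroup ℕ)} (h : W ⊆ verbal V (FreeGroup ℕ)) (H : Type) [Group H] :
    verbal W H ≤ verbal V H := by
  unfold verbal at *
  rw [Subgroup.closure_le]
  rintro _ ⟨w, hw, φ, rfl⟩
  exact mem_verbal_map (W := V) φ (h hw)

/-- evaluation of a word in two letters -/
def ev {H : Type} [Group H] (X Y : H) : FreeGroup (Fin 2) →* H := FreeGroup.lift ![X, Y]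

@[simp] theorem ev_zero {H : Type} [Group H] (X Y : H) : ev X Y (FreeGroup.of 0) = X := by simp [ev]

@[simp] theorem ev_one {H : Type} [Group H] (X Y : H) : ev X Y (FreeGroup.of 1) = Y := by simp [ev]

theorem ev_ext {H : Type} [Group H] {f g : FreeGroup (Fin 2) →* H} (h0 : f (FreeGroup.of 0) = g (FreeGroup.of 0))
    (h1 : f (FreeGroup.of 1) = g (FreeGroup.of 1)) : f = g := by
  ext i
  fin_cases i
  · exact h0
  · exact h1

theorem comp_ev {H H' : Type} [Group H] [Group H'] (f : H →* H') (X Y : H) :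
    f.comp (ev X Y) = ev (f X) (f Y) :=
  ev_ext (by simp) (by simp)

theorem map_ev {H H' : Type} [Group H] [Group H'] (f : H →* H') (X Y : H) (w : FreeGroup (Fin 2)) :
    f (ev X Y w) = ev (f X) (f Y) w :=
  DFunLike.congr_fun (comp_ev f X Y) w

theorem eq_ev {H : Type} [Group H] (f : FreeGroup (Fin 2) →* H) :
    f = ev (f (FreeGroup.of 0)) (f (FreeGroup.of 1)) :=
  ev_ext (by simp) (by simp)

/-- `N`: the normal closure of the second generator -/
def NY : Subgroup (FreeGroup (Fin 2)) := Subgroup.normalClosure {FreeGroup.of 1}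

theorem NY_normal' : NY.Normal := Subgroup.normalClosure_normal

instance : NY.Normal := NY_normal'

/-- `G = ⟨x, y, z | z^k = x v(x, y)⟩` -/
structure IsG (v : FreeGroup (Fin 2)) (k : ℕ) (G : Type) [Group G] (x y z : G) : Prop where
  rel : z ^ k = x * ev x y v
  gen : Subgroup.closure {x, y, z} = ⊤
  univ : ∀ (H : Type) [Group H] (X Y Z : H), Z ^ k = X * ev X Y v → ∃ f : G →* H, f x = X ∧ f y = Y ∧ f z = Z

/-- the relator -/
def rr (v : FreeGroup (Fin 2)) (k : ℕ) : FreeGroup (Fin 3) :=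
  FreeGroup.of 2 ^ k * (FreeGroup.of 0 * FreeGroup.map Fin.castSucc v)⁻¹

theorem isG_rr (v : FreeGroup (Fin 2)) (k : ℕ) :
    IsG v k (PresentedGroup {rr v k}) (PresentedGroup.of 0) (PresentedGroup.of 1) (PresentedGroup.of 2) where
  rel := by
    have h := PresentedGroup.one_of_mem (rels := {rr v k}) (x := rr v k) rfl
    unfold rr at h
    rw [map_mul, map_inv, mul_inv_eq_one, map_mul, map_pow] at h
    have e : PresentedGroup.mk {rr v k} (FreeGroup.map Fin.castSucc v) =
        ev (PresentedGroup.of 0 : PresentedGroup {rr v k}) (PresentedGroup.of 1) v := by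
      have : (PresentedGroup.mk {rr v k}).comp (FreeGroup.map (Fin.castSucc : Fin 2 → Fin 3)) =
          ev (PresentedGroup.of 0 : PresentedGroup {rr v k}) (PresentedGroup.of 1) := by
        apply ev_ext
        · simp; rfl
        · simp; rfl
      exact DFunLike.congr_fun this v
    unfold rr at e
    rw [e] at h
    exact h
  gen := by
    rw [eq_top_iff, ← PresentedGroup.closure_range_of, Subgroup.closure_le]
    rintro _ ⟨i, rfl⟩
    apply Subgroup.subset_closure
    fin_cases i <;> simp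
  univ := by
    intro H _ X Y Z h
    have h1 : ∀ r ∈ ({rr v k} : Set (FreeGroup (Fin 3))), FreeGroup.lift ![X, Y, Z] r = 1 := by
      intro r hr
      rw [Set.mem_singleton_iff] at hr
      rw [hr, rr, map_mul, map_inv, mul_inv_eq_one, map_mul, map_pow]
      have e : FreeGroup.lift ![X, Y, Z] (FreeGroup.map Fin.castSucc v) = ev X Y v := by
        have : (FreeGroup.lift ![X, Y, Z]).comp (FreeGroup.map (Fin.castSucc : Fin 2 → Fin 3)) = ev X Y := by
          apply ev_ext
          · simp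
          · simp
        exact DFunLike.congr_fun this v
      rw [e]
      simpa using h
    exact ⟨PresentedGroup.toGroup h1, by simp, by simp, by simp⟩

theorem IsG.ext {v : FreeGroup (Fin 2)} {k : ℕ} {G : Type} [Group G] {x y z : G} (hG : IsG v k G x y z)
    {H : Type} [Group H] {f g : G →* H} (h0 : f x = g x) (h1 : f y = g y) (h2 : f z = g z) : f = g := by
  apply MonoidHom.eq_of_eqOn_top
  rw [← hG.gen]
  apply MonoidHom.eqOn_closure
  rintro a (rfl | rfl | rfl)
  · exact h0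
  · exact h1
  · exact h2

/-- equality on a commutator subgroup -/
theorem eq_on_comm {A P : Type} [Group A] [Group P] (φ φ' : A →* P) (N : Subgroup A) (B K : Subgroup P)
    (hKB : K ≤ B) (hc : ∀ b ∈ B, ∀ c ∈ K, b * c = c * b) (hN : ∀ n ∈ N, φ n ∈ B)
    (hd : ∀ n ∈ N, (φ n)⁻¹ * φ' n ∈ K) : ∀ v ∈ ⁅N, N⁆, φ' v = φ v := by
  have : ⁅N, N⁆ ≤ φ'.eqLocus φ := by
    rw [Subgroup.commutator_le]
    intro g1 hg1 g2 hg2
    change φ' ⁅g1, g2⁆ = φ ⁅g1, g2⁆
    obtain ⟨c1, hc1, e1⟩ : ∃ c1 ∈ K, φ' g1 = φ g1 * c1 := ⟨_, hd g1 hg1, by group⟩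
    obtain ⟨c2, hc2, e2⟩ : ∃ c2 ∈ K, φ' g2 = φ g2 * c2 := ⟨_, hd g2 hg2, by group⟩
    have hb1 := hN g1 hg1
    have hb2 := hN g2 hg2
    rw [map_commutatorElement, map_commutatorElement, e1, e2, commutatorElement_def, commutatorElement_def]
    have f1 := hc _ hb2 _ hc1
    have f2 := hc _ (hKB hc1) _ hc2
    have f3 := hc _ (inv_mem hb1) _ hc2
    calc φ g1 * c1 * (φ g2 * c2) * (φ g1 * c1)⁻¹ * (φ g2 * c2)⁻¹
        = φ g1 * (c1 * φ g2) * c2 * c1⁻¹ * (φ g1)⁻¹ * c2⁻¹ * (φ g2)⁻¹ := by group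
      _ = φ g1 * φ g2 * (c1 * c2) * c1⁻¹ * (φ g1)⁻¹ * c2⁻¹ * (φ g2)⁻¹ := by rw [← f1]; group
      _ = φ g1 * φ g2 * (c2 * (φ g1)⁻¹) * c2⁻¹ * (φ g2)⁻¹ := by rw [f2]; group
      _ = φ g1 * φ g2 * (φ g1)⁻¹ * (φ g2)⁻¹ := by rw [← f3]; group
  exact fun v hv => this hv

/-- equality on a normal closure -/
theorem eq_on_nc {A P : Type} [Group A] [Group P] (φ φ' : A →* P) (y : A) (B K : Subgroup P)
    (hc : ∀ b ∈ B, ∀ c ∈ K, b * c = c * b) (hy : φ' y = φ y) (hB : φ y ∈ B)
    (hd : ∀ a, (φ a)⁻¹ * φ' a ∈ K) : ∀ n ∈ Subgroup.normalClosure {y}, φ' n = φ n := by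
  have : Subgroup.normalClosure {y} ≤ φ'.eqLocus φ := by
    rw [Subgroup.normalClosure, Subgroup.closure_le]
    intro n hn
    rw [Group.mem_conjugatesOfSet_iff] at hn
    obtain ⟨a, ha, hconj⟩ := hn
    rw [Set.mem_singleton_iff] at ha
    subst ha
    rw [isConj_iff] at hconj
    obtain ⟨h, rfl⟩ := hconj
    change φ' (h * a * h⁻¹) = φ (h * a * h⁻¹)
    obtain ⟨c, hcK, e⟩ : ∃ c ∈ K, φ' h = φ h * c := ⟨_, hd h, by group⟩
    have f := hc _ hB _ hcK
    rw [map_mul, map_mul, map_inv, map_mul, map_mul, map_inv, e, hy]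
    calc φ h * c * φ a * (φ h * c)⁻¹ = φ h * (c * φ a) * c⁻¹ * (φ h)⁻¹ := by group
      _ = φ h * φ a * (φ h)⁻¹ := by rw [← f]; group
  exact fun v hv => this hv

end Pool.Agent.PFV
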