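import Pool.Agent.PFV.Iso

/-! Detection: a finite group whose variety distinguishes `G` from the free group. -/

set_option autoImplicit false

namespace Pool.Agent.PFV

/-- permutational wreath product of `ZMod p` and `S` acting on `Ω` -/
@[ext]
structure PW (p : ℕ) (S Ω : Type) where
  m : Ω → ZMod p
  s : S

section PW

variable {p : ℕ} {S Ω : Type} [Group S] [MulAction S Ω]

instance : Mul (PW p S Ω) := ⟨fun a b => ⟨fun ω => a.m ω + b.m (a.s⁻¹ • ω), a.s * b.s⟩⟩
instance : One (PW p S Ω) := ⟨⟨0, 1⟩⟩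
instance : Inv (PW p S Ω) := ⟨fun a => ⟨fun ω => - a.m (a.s • ω), a.s⁻¹⟩⟩

theorem PW_mul_m (a b : PW p S Ω) (ω : Ω) : (a * b).m ω = a.m ω + b.m (a.s⁻¹ • ω) := rfl
theorem PW_mul_s (a b : PW p S Ω) : (a * b).s = a.s * b.s := rfl
theorem PW_one_m (ω : Ω) : (1 : PW p S Ω).m ω = 0 := rfl
theorem PW_one_s : (1 : PW p S Ω).s = 1 := rfl
theorem PW_inv_m (a : PW p S Ω) (ω : Ω) : (a⁻¹).m ω = - a.m (a.s • ω) := rfl
theorem PW_inv_s (a : PW p S Ω) : (a⁻¹).s = a.s⁻¹ := rfl

instance : Group (PW p S Ω) := Group.ofLeftAxioms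
  (by
    intro a b c
    ext ω
    · simp only [PW_mul_m, PW_mul_s, mul_inv_rev, mul_smul, add_assoc]
    · simp only [PW_mul_s, mul_assoc])
  (by
    intro a
    ext ω
    · simp only [PW_mul_m, PW_one_m, PW_one_s, inv_one, one_smul, zero_add]
    · simp only [PW_mul_s, PW_one_s, one_mul])
  (by
    intro a
    ext ω
    · simp only [PW_mul_m, PW_inv_m, PW_inv_s, inv_inv, PW_one_m, neg_add_cancel]
    · simp only [PW_mul_s, PW_inv_s, inv_mul_cancel, PW_one_s])

/-- projection to `S` -/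
def PWπ (p : ℕ) (S Ω : Type) [Group S] [MulAction S Ω] : PW p S Ω →* S where
  toFun := PW.s
  map_one' := rfl
  map_mul' _ _ := rfl

theorem PWπ_surj : Function.Surjective (PWπ p S Ω) := fun s => ⟨⟨0, s⟩, rfl⟩

instance [NeZero p] [Finite S] [Finite Ω] : Finite (PW p S Ω) := by
  have : Function.Injective (fun a : PW p S Ω => (a.m, a.s)) := by
    intro a b h
    simp only [Prod.mk.injEq] at h
    exact PW.ext h.1 h.2
  exact Finite.of_injective _ this

theorem PW_pow (a : PW p S Ω) (ha : a ∈ (PWπ p S Ω).ker) (n : ℕ) :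
    (a ^ n).s = 1 ∧ ∀ ω, (a ^ n).m ω = n * a.m ω := by
  have ha' : a.s = 1 := ha
  induction n with
  | zero =>
    refine ⟨rfl, fun ω => ?_⟩
    rw [pow_zero, PW_one_m]; simp
  | succ n ih =>
    obtain ⟨h1, h2⟩ := ih
    refine ⟨by rw [pow_succ, PW_mul_s, h1, ha', one_mul], fun ω => ?_⟩
    rw [pow_succ, PW_mul_m, h1, h2, inv_one, one_smul]
    push_cast
    ring

theorem PW_exp (a : PW p S Ω) (ha : a ∈ (PWπ p S Ω).ker) : a ^ p = 1 := by
  obtain ⟨h1, h2⟩ := PW_pow a ha p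
  ext ω
  · rw [h2 ω, PW_one_m]; simp
  · rw [h1, PW_one_s]

theorem PW_ker_card : Nat.card (PWπ p S Ω).ker = Nat.card (Ω → ZMod p) := by
  apply Nat.card_congr
  exact
    { toFun := fun a => a.1.m
      invFun := fun m => ⟨⟨m, 1⟩, rfl⟩
      left_inv := by
        rintro ⟨a, ha⟩
        have ha' : a.s = 1 := ha
        apply Subtype.ext
        ext ω
        · rfl
        · exact ha'.symm
      right_inv := fun m => rfl }

end PW

section Sec

variable {p : ℕ} {S : Type} [Group S] (j : Multiplicative (ZMod p × ZMod p) →* S)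

/-- representatives -/
noncomputable def rep (ω : S ⧸ j.range) : S := Quotient.out ω

theorem rep_mk (ω : S ⧸ j.range) : ((rep j ω : S) : S ⧸ j.range) = ω := Quotient.out_eq ω

theorem exists_T (g : S) (ω : S ⧸ j.range) : ∃ t, j t = (rep j ω)⁻¹ * g * rep j (g⁻¹ • ω) := by
  have h : (rep j ω)⁻¹ * (g * rep j (g⁻¹ • ω)) ∈ j.range := by
    rw [← QuotientGroup.eq, rep_mk]
    have : ((g * rep j (g⁻¹ • ω) : S) : S ⧸ j.range) = g • (((rep j (g⁻¹ • ω) : S)) : S ⧸ j.range) := rfl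
    rw [this, rep_mk, smul_inv_smul]
  obtain ⟨t, ht⟩ := h
  exact ⟨t, by rw [ht]; group⟩

/-- the `T0`-valued cocycle -/
noncomputable def Tc (g : S) (ω : S ⧸ j.range) : Multiplicative (ZMod p × ZMod p) := (exists_T j g ω).choose

theorem j_Tc (g : S) (ω : S ⧸ j.range) : j (Tc j g ω) = (rep j ω)⁻¹ * g * rep j (g⁻¹ • ω) :=
  (exists_T j g ω).choose_spec

theorem Tc_mul (hj : Function.Injective j) (g h : S) (ω : S ⧸ j.range) :
    Tc j (g * h) ω = Tc j g ω * Tc j h (g⁻¹ • ω) := by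
  apply hj
  rw [map_mul, j_Tc, j_Tc, j_Tc, mul_inv_rev, mul_smul]
  group

/-- linear functionals -/
def lf (l : ZMod p × ZMod p) (t : Multiplicative (ZMod p × ZMod p)) : ZMod p :=
  l.1 * (Multiplicative.toAdd t).1 + l.2 * (Multiplicative.toAdd t).2

theorem lf_mul (l : ZMod p × ZMod p) (t u : Multiplicative (ZMod p × ZMod p)) :
    lf l (t * u) = lf l t + lf l u := by
  unfold lf
  rw [toAdd_mul, Prod.fst_add, Prod.snd_add]
  ring

/-- the sections -/
noncomputable def secH (hj : Function.Injective j) (m : S ⧸ j.range → ZMod p) (l : ZMod p × ZMod p) :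
    S →* PW p S (S ⧸ j.range) :=
  MonoidHom.mk' (fun g => ⟨fun ω => m (g⁻¹ • ω) - m ω + lf l (Tc j g ω), g⟩) (by
    intro g h
    ext ω
    · rw [PW_mul_m]
      simp only
      rw [Tc_mul j hj, lf_mul, mul_inv_rev, mul_smul]
      ring
    · rfl)

theorem secH_m (hj : Function.Injective j) (m : S ⧸ j.range → ZMod p) (l : ZMod p × ZMod p) (g : S) (ω : S ⧸ j.range) :
    (secH j hj m l g).m ω = m (g⁻¹ • ω) - m ω + lf l (Tc j g ω) := rfl

theorem secH_sec (hj : Function.Injective j) (m : S ⧸ j.range → ZMod p) (l : ZMod p × ZMod p) :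
    (PWπ p S (S ⧸ j.range)).comp (secH j hj m l) = MonoidHom.id S := by
  ext g
  rfl

/-- base point -/
def w0 : S ⧸ j.range := ((1 : S) : S ⧸ j.range)

theorem stab (t : Multiplicative (ZMod p × ZMod p)) : (j t)⁻¹ • w0 j = w0 j := by
  change (((j t)⁻¹ * 1 : S) : S ⧸ j.range) = ((1 : S) : S ⧸ j.range)
  rw [QuotientGroup.eq]
  exact ⟨t, by group⟩

theorem Tc_base (hj : Function.Injective j) (t : Multiplicative (ZMod p × ZMod p)) : Tc j (j t) (w0 j) = t := by
  apply hj
  rw [j_Tc, stab]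
  have h : (rep j (w0 j)) ∈ j.range := by
    have h1 := rep_mk j (w0 j)
    have h2 := QuotientGroup.eq.1 h1
    rw [mul_one] at h2
    exact (inv_mem_iff).1 h2
  obtain ⟨a, ha⟩ := h
  rw [← ha, ← map_inv, ← map_mul, ← map_mul]
  congr 1
  rw [mul_comm a⁻¹ t, inv_mul_cancel_right]

theorem sec_inj (hj : Function.Injective j) {m m' : S ⧸ j.range → ZMod p} {l l' : ZMod p × ZMod p}
    (h : secH j hj m l = secH j hj m' l') (h0 : m (w0 j) = m' (w0 j)) : m = m' ∧ l = l' := by
  have hval : ∀ g ω, m (g⁻¹ • ω) - m ω + lf l (Tc j g ω) = m' (g⁻¹ • ω) - m' ω + lf l' (Tc j g ω) := by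
    intro g ω
    rw [← secH_m j hj, ← secH_m j hj, h]
  have hl : ∀ t, lf l t = lf l' t := by
    intro t
    have := hval (j t) (w0 j)
    rw [stab, Tc_base j hj] at this
    simpa using this
  have hll : l = l' := by
    have h1 := hl (Multiplicative.ofAdd (1, 0))
    have h2 := hl (Multiplicative.ofAdd (0, 1))
    simp only [lf, toAdd_ofAdd, mul_one, mul_zero, add_zero, zero_add] at h1 h2
    exact Prod.ext h1 h2
  refine ⟨?_, hll⟩
  subst hll
  funext ω
  obtain ⟨g, rfl⟩ := QuotientGroup.mk_surjective ω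
  have h3 := hval g⁻¹ (w0 j)
  rw [inv_inv] at h3
  have h4 : g • w0 j = ((g : S) : S ⧸ j.range) := by
    change ((g * 1 : S) : S ⧸ j.range) = _
    rw [mul_one]
  rw [h4, h0] at h3
  linear_combination h3

theorem card_sec [Fact p.Prime] [Finite S] (hj : Function.Injective j) :
    Nat.card (PWπ p S (S ⧸ j.range)).ker <
      Nat.card {σ : S →* PW p S (S ⧸ j.range) // (PWπ p S (S ⧸ j.range)).comp σ = MonoidHom.id S} := by
  have : NeZero p := ⟨(Fact.out : p.Prime).ne_zero⟩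
  have hfin : Finite (S →* PW p S (S ⧸ j.range)) := Finite.of_injective (fun f => (f : S → _)) DFunLike.coe_injective
  set Sec := {σ : S →* PW p S (S ⧸ j.range) // (PWπ p S (S ⧸ j.range)).comp σ = MonoidHom.id S} with hSec
  have hinj : Function.Injective (fun q : (S ⧸ j.range → ZMod p) × (ZMod p × ZMod p) =>
      ((⟨secH j hj q.1 q.2, secH_sec j hj q.1 q.2⟩ : Sec), q.1 (w0 j))) := by
    rintro ⟨m, l⟩ ⟨m', l'⟩ h
    simp only [Prod.mk.injEq, Subtype.mk.injEq] at h
    obtain ⟨h1, h2⟩ := sec_inj j hj h.1 h.2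
    rw [h1, h2]
  have hcard := Nat.card_le_card_of_injective _ hinj
  rw [Nat.card_prod, Nat.card_prod, Nat.card_prod, Nat.card_zmod] at hcard
  rw [PW_ker_card]
  have hM : 0 < Nat.card (S ⧸ j.range → ZMod p) := Nat.card_pos
  have hp : 1 < p := (Fact.out : p.Prime).one_lt
  have h1 : p * (Nat.card (S ⧸ j.range → ZMod p) * p) ≤ p * Nat.card Sec := by
    calc p * (Nat.card (S ⧸ j.range → ZMod p) * p) = Nat.card (S ⧸ j.range → ZMod p) * (p * p) := by ring
      _ ≤ Nat.card Sec * p := hcard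
      _ = p * Nat.card Sec := by ring
  have h2 := Nat.le_of_mul_le_mul_left h1 (by omega)
  calc Nat.card (S ⧸ j.range → ZMod p) < Nat.card (S ⧸ j.range → ZMod p) * p := by
        exact lt_mul_of_one_lt_right hM hp
    _ ≤ Nat.card Sec := h2

end Sec

/-- the laws of a group -/
def laws (Q : Type) [Group Q] : Set (FreeGroup ℕ) := {w | ∀ φ : FreeGroup ℕ →* Q, φ w = 1}

theorem verbal_laws (Q : Type) [Group Q] : verbal (laws Q) Q = ⊥ := by
  unfold verbal
  rw [eq_bot_iff, Subgroup.closure_le]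
  rintro _ ⟨w, hw, φ, rfl⟩
  exact hw φ

theorem laws_proper (Q : Type) [Group Q] [Finite Q] : ∃ w ∈ laws Q, w ≠ 1 := by
  refine ⟨FreeGroup.of 0 ^ Nat.card Q, ?_, ?_⟩
  · intro φ
    rw [map_pow, pow_card_eq_one']
  · intro h
    let f : FreeGroup ℕ →* Multiplicative ℤ := FreeGroup.lift (fun _ : ℕ => Multiplicative.ofAdd (1 : ℤ))
    have h1 : f (FreeGroup.of 0 ^ Nat.card Q) = f 1 := congrArg f h
    have h3 : f (FreeGroup.of 0) = Multiplicative.ofAdd (1 : ℤ) := FreeGroup.lift_apply_of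
    rw [map_pow, map_one, h3] at h1
    have h2 := congrArg Multiplicative.toAdd h1
    rw [toAdd_pow, toAdd_ofAdd, toAdd_one] at h2
    simp only [nsmul_eq_mul, mul_one, Nat.cast_eq_zero] at h2
    have : 0 < Nat.card Q := Nat.card_pos
    omega

/-- a finite group whose variety distinguishes `G` from the free group of rank two -/
theorem detect {v : FreeGroup (Fin 2)} {k : ℕ} {G : Type} [Group G] {x y z : G} (hG : IsG v k G x y z)
    (p : ℕ) [Fact p.Prime] (hpk : p ∣ k) (S : Type) [Group S] [Finite S] (ρ : FreeGroup (Fin 2) →* S)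
    (hρ : Function.Surjective ρ) (j : Multiplicative (ZMod p × ZMod p) →* S) (hj : Function.Injective j)
    (hv : ρ (FreeGroup.of 0 * v) = 1) :
    ∃ (Q : Type) (_ : Group Q) (_ : Finite Q),
      IsEmpty (G ⧸ verbal (laws Q) G ≃* FreeGroup (Fin 2) ⧸ verbal (laws Q) (FreeGroup (Fin 2))) := by
  have : NeZero p := ⟨(Fact.out : p.Prime).ne_zero⟩
  let Ω := S ⧸ j.range
  let Q := PW p S Ω
  let π : Q →* S := PWπ p S Ω
  let Sec := {σ : S →* Q // π.comp σ = MonoidHom.id S}
  refine ⟨Q, inferInstance, inferInstance, ⟨fun Ψ => ?_⟩⟩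
  let F := FreeGroup (Fin 2)
  set V := laws Q with hV
  have hVQ : verbal V Q = ⊥ := verbal_laws Q
  -- homomorphisms of `G`
  have hex : ∀ q : Sec × π.ker, ∃ φ : G →* Q, φ x = q.1.1 (ρ (FreeGroup.of 0)) ∧
      φ y = q.1.1 (ρ (FreeGroup.of 1)) ∧ φ z = q.2.1 := by
    rintro ⟨⟨σ, hσ⟩, ⟨m, hm⟩⟩
    apply hG.univ
    obtain ⟨c, rfl⟩ := hpk
    rw [pow_mul, PW_exp m hm, one_pow]
    have h1 : ev (σ (ρ (FreeGroup.of 0))) (σ (ρ (FreeGroup.of 1))) = σ.comp ρ := (eq_ev (σ.comp ρ)).symm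
    rw [h1]
    change 1 = σ (ρ (FreeGroup.of 0)) * σ (ρ v)
    rw [← map_mul, ← map_mul, hv, map_one]
  choose Φ hΦx hΦy hΦz using hex
  -- the projection is constant
  have hπΦ : ∀ q q', π.comp (Φ q) = π.comp (Φ q') := by
    intro q q'
    have h1 : ∀ (q : Sec × π.ker) (s : S), π (q.1.1 s) = s := by
      rintro ⟨⟨σ, hσ⟩, _⟩ s
      exact DFunLike.congr_fun hσ s
    apply hG.ext
    · rw [MonoidHom.comp_apply, MonoidHom.comp_apply, hΦx, hΦx, h1, h1]
    · rw [MonoidHom.comp_apply, MonoidHom.comp_apply, hΦy, hΦy, h1, h1]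
    · rw [MonoidHom.comp_apply, MonoidHom.comp_apply, hΦz, hΦz]
      exact (q.2.2).trans (q'.2.2).symm
  -- transfer to `F`
  let tr : (G →* Q) → (F →* Q) := fun φ =>
    (QuotientGroup.lift (verbal V G) φ (verbal_le_ker φ hVQ)).comp
      (Ψ.symm.toMonoidHom.comp (QuotientGroup.mk' (verbal V F)))
  have htr_inj : ∀ φ φ', tr φ = tr φ' → φ = φ' := by
    intro φ φ' h
    refine MonoidHom.ext fun g => ?_
    obtain ⟨f, hf⟩ := QuotientGroup.mk'_surjective (verbal V F) (Ψ (g : G ⧸ verbal V G))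
    have h1 := DFunLike.congr_fun h f
    simp only [tr, MonoidHom.comp_apply] at h1
    rw [hf] at h1
    have h2 : Ψ.symm.toMonoidHom (Ψ (g : G ⧸ verbal V G)) = (g : G ⧸ verbal V G) := Ψ.symm_apply_apply _
    rw [h2] at h1
    exact h1
  have htr_π : ∀ φ φ' : G →* Q, π.comp φ = π.comp φ' → π.comp (tr φ) = π.comp (tr φ') := by
    intro φ φ' h
    refine MonoidHom.ext fun f => ?_
    simp only [tr, MonoidHom.comp_apply]
    obtain ⟨g, hg⟩ := QuotientGroup.mk_surjective (Ψ.symm.toMonoidHom (QuotientGroup.mk' (verbal V F) f))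
    rw [← hg]
    exact DFunLike.congr_fun h g
  have hSecne : Nonempty Sec := ⟨⟨secH j hj 0 0, secH_sec j hj 0 0⟩⟩
  let q0 : Sec × π.ker := (Classical.arbitrary Sec, 1)
  let θ : Sec × π.ker → π.ker × π.ker := fun q =>
    (⟨tr (Φ q) (FreeGroup.of 0) * (tr (Φ q0) (FreeGroup.of 0))⁻¹, by
      have := DFunLike.congr_fun (htr_π _ _ (hπΦ q q0)) (FreeGroup.of 0)
      simp only [MonoidHom.comp_apply] at this
      rw [MonoidHom.mem_ker, map_mul, map_inv, this, mul_inv_cancel]⟩,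
     ⟨tr (Φ q) (FreeGroup.of 1) * (tr (Φ q0) (FreeGroup.of 1))⁻¹, by
      have := DFunLike.congr_fun (htr_π _ _ (hπΦ q q0)) (FreeGroup.of 1)
      simp only [MonoidHom.comp_apply] at this
      rw [MonoidHom.mem_ker, map_mul, map_inv, this, mul_inv_cancel]⟩)
  have hθ : Function.Injective θ := by
    intro q q' h
    simp only [θ, Prod.mk.injEq, Subtype.mk.injEq] at h
    have h0 := mul_right_cancel h.1
    have h1 := mul_right_cancel h.2
    have h2 : Φ q = Φ q' := htr_inj _ _ (ev_ext h0 h1)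
    have hz : q.2 = q'.2 := Subtype.ext (by rw [← hΦz, ← hΦz, h2])
    have hs : q.1 = q'.1 := by
      apply Subtype.ext
      have hcomp : q.1.1.comp ρ = q'.1.1.comp ρ := by
        apply ev_ext
        · rw [MonoidHom.comp_apply, MonoidHom.comp_apply, ← hΦx, ← hΦx, h2]
        · rw [MonoidHom.comp_apply, MonoidHom.comp_apply, ← hΦy, ← hΦy, h2]
      ext s
      · obtain ⟨a, rfl⟩ := hρ s
        rw [← MonoidHom.comp_apply, ← MonoidHom.comp_apply, hcomp]
      · obtain ⟨a, rfl⟩ := hρ s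
        rw [← MonoidHom.comp_apply, ← MonoidHom.comp_apply, hcomp]
    exact Prod.ext hs hz
  have hcard := Nat.card_le_card_of_injective θ hθ
  rw [Nat.card_prod, Nat.card_prod] at hcard
  have hlt : Nat.card π.ker < Nat.card Sec := card_sec j hj
  have hpos : 0 < Nat.card π.ker := Nat.card_pos
  have := Nat.le_of_mul_le_mul_right hcard hpos
  omega

/-- `G` is not free -/
theorem not_free {v : FreeGroup (Fin 2)} {k : ℕ} {G : Type} [Group G] {x y z : G} (hG : IsG v k G x y z)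
    (hv : v ∈ commutator (FreeGroup (Fin 2))) (V : Set (FreeGroup ℕ))
    (hV : IsEmpty (G ⧸ verbal V G ≃* FreeGroup (Fin 2) ⧸ verbal V (FreeGroup (Fin 2)))) (X : Type) :
    IsEmpty (G ≃* FreeGroup X) := by
  constructor
  intro e
  obtain ⟨a⟩ := lcs_iso hv hG 1
  have hLL : ∀ (H : Type) [Group H], LL H 1 = commutator H := by
    intro H _
    unfold LL
    exact Subgroup.top_lowerCentralSeries_one
  have e1 : Abelianization (FreeGroup X) ≃* Abelianization (FreeGroup (Fin 2)) := by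
    have h1 : G ⧸ LL G 1 ≃* Abelianization G := QuotientGroup.quotientMulEquivOfEq (hLL G)
    have h2 : FreeGroup (Fin 2) ⧸ LL (FreeGroup (Fin 2)) 1 ≃* Abelianization (FreeGroup (Fin 2)) :=
      QuotientGroup.quotientMulEquivOfEq (hLL _)
    exact (e.abelianizationCongr).symm.trans (h1.symm.trans (a.trans h2))
  have e2 : FreeAbelianGroup X ≃+ FreeAbelianGroup (Fin 2) := MulEquiv.toAdditive e1
  have e3 : X ≃ Fin 2 := Equiv.ofFreeAbelianGroupEquiv e2
  let e4 : G ≃* FreeGroup (Fin 2) := e.trans (FreeGroup.freeGroupCongr e3)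
  apply hV.false
  refine QuotientGroup.congr _ _ e4 ?_
  apply le_antisymm
  · exact map_verbal_le V e4.toMonoidHom
  · exact verbal_surj V e4.toMonoidHom e4.surjective

end Pool.Agent.PFV
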