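import Pool.Agent.PFV.Wr
import Pool.Agent.PFV.Res

/-! Residual nilpotence of `G = ⟨x, y, z | z^k = x v(x, y)⟩`. -/

set_option autoImplicit false

namespace Pool.Agent.PFV

open RegularWreathProduct

/-- the generating conjugates -/
def cj (j : ℤ) : FreeGroup (Fin 2) := FreeGroup.of 0 ^ j * FreeGroup.of 1 * (FreeGroup.of 0 ^ j)⁻¹

theorem NY_le : NY ≤ Subgroup.closure (Set.range cj) := by
  set R := Subgroup.closure (Set.range cj) with hR
  have h1 : (FreeGroup.of 1 : FreeGroup (Fin 2)) ∈ R := by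
    apply Subgroup.subset_closure
    exact ⟨0, by simp [cj]⟩
  have hx : (FreeGroup.of 0 : FreeGroup (Fin 2)) ∈ Subgroup.normalizer (R : Set (FreeGroup (Fin 2))) := by
    have hstep : ∀ e : ℤ, ∀ a ∈ R, (FreeGroup.of 0 : FreeGroup (Fin 2)) ^ e * a * ((FreeGroup.of 0 : FreeGroup (Fin 2)) ^ e)⁻¹ ∈ R := by
      intro e a ha
      induction ha using Subgroup.closure_induction with
      | mem a ha =>
        obtain ⟨j, rfl⟩ := ha
        apply Subgroup.subset_closure
        refine ⟨e + j, ?_⟩
        simp only [cj]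
        rw [zpow_add]
        group
      | one => simp
      | mul a b _ _ iha ihb =>
        have := mul_mem iha ihb
        convert this using 1
        group
      | inv a _ iha =>
        have := inv_mem iha
        convert this using 1
        group
    rw [Subgroup.mem_normalizer_iff]
    intro a
    constructor
    · intro ha
      have := hstep 1 a ha
      simpa using this
    · intro ha
      have := hstep (-1) _ ha
      convert this using 1
      group
  have hnorm : Subgroup.normalizer (R : Set (FreeGroup (Fin 2))) = ⊤ := by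
    rw [eq_top_iff, ← FreeGroup.closure_range_of, Subgroup.closure_le]
    rintro _ ⟨i, rfl⟩
    fin_cases i
    · exact hx
    · exact Subgroup.le_normalizer h1
  have : R.Normal := Subgroup.normalizer_eq_top_iff.1 hnorm
  unfold NY
  apply Subgroup.normalClosure_le_normal
  rw [Set.singleton_subset_iff]
  exact h1

section

variable {v : FreeGroup (Fin 2)} {k : ℕ} {G : Type} [Group G] {x y z : G}

/-- the homomorphism from the free group on `ℤ` -/
def EE (k : ℕ) (x y z : G) : FreeGroup ℤ →* G := FreeGroup.lift (fun m => em k x y z m)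

theorem em_mem (hk : 0 < k) (i : ℕ) (hi : i < k) (n : FreeGroup (Fin 2)) (hn : n ∈ NY) :
    z ^ (i : ℤ) * ev x y n * (z ^ (i : ℤ))⁻¹ ∈ (EE k x y z).range := by
  have h := NY_le hn
  clear hn
  induction h using Subgroup.closure_induction with
  | mem a ha =>
    obtain ⟨j, rfl⟩ := ha
    refine ⟨FreeGroup.of (i + k * j), ?_⟩
    have h1 : ((i : ℤ) + k * j) % k = i := by
      rw [Int.add_mul_emod_self_left]
      exact Int.emod_eq_of_lt (by positivity) (by exact_mod_cast hi)
    have h2 : ((i : ℤ) + k * j) / k = j := by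
      rw [Int.add_mul_ediv_left _ _ (by exact_mod_cast hk.ne'), Int.ediv_eq_zero_of_lt (by positivity) (by exact_mod_cast hi),
        zero_add]
    rw [EE, FreeGroup.lift_apply_of, em, gm, h1, h2, cj, map_mul, map_mul, map_inv, map_zpow, ev_zero, ev_one]
    group
  | one => simp
  | mul a b _ _ iha ihb =>
    have := mul_mem iha ihb
    convert this using 1
    rw [map_mul]
    group
  | inv a _ iha =>
    have := inv_mem iha
    convert this using 1
    rw [map_inv]
    group

/-- the set generating the kernel of `χ` -/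
def TT (k : ℕ) (x y z : G) : Set G :=
  {g | ∃ i : ℕ, i < k ∧ ∃ n ∈ NY, g = z ^ (i : ℤ) * ev x y n * (z ^ (i : ℤ))⁻¹}

theorem TT_le (hk : 0 < k) : Subgroup.closure (TT k x y z) ≤ (EE k x y z).range := by
  rw [Subgroup.closure_le]
  rintro _ ⟨i, hi, n, hn, rfl⟩
  exact em_mem hk i hi n hn

theorem ev_mem_TT (hk : 0 < k) {n : FreeGroup (Fin 2)} (hn : n ∈ NY) : ev x y n ∈ Subgroup.closure (TT k x y z) := by
  apply Subgroup.subset_closure
  exact ⟨0, hk, n, hn, by simp⟩

theorem closure_conj_le {T : Set G} {g : G} (h : ∀ t ∈ T, g * t * g⁻¹ ∈ Subgroup.closure T) :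
    ∀ t ∈ Subgroup.closure T, g * t * g⁻¹ ∈ Subgroup.closure T := by
  intro t ht
  induction ht using Subgroup.closure_induction with
  | mem a ha => exact h a ha
  | one => simp
  | mul a b _ _ iha ihb =>
    have := mul_mem iha ihb
    convert this using 1
    group
  | inv a _ iha =>
    have := inv_mem iha
    convert this using 1
    group

theorem TT_normal (hk : 0 < k) (hv : v ∈ NY) (hG : IsG v k G x y z) : (Subgroup.closure (TT k x y z)).Normal := by
  set R := Subgroup.closure (TT k x y z) with hR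
  have hz1 : ∀ t ∈ R, z * t * z⁻¹ ∈ R := by
    apply closure_conj_le
    rintro _ ⟨i, hi, n, hn, rfl⟩
    apply Subgroup.subset_closure
    by_cases h : i + 1 < k
    · refine ⟨i + 1, h, n, hn, ?_⟩
      push_cast
      rw [zpow_add, zpow_one]
      group
    · have hik : i + 1 = k := by omega
      have hzk : z * z ^ (i : ℤ) = z ^ k := by
        rw [← hik, pow_succ', zpow_natCast]
      refine ⟨0, hk, (FreeGroup.of 0 * v) * n * (FreeGroup.of 0 * v)⁻¹, NY_normal'.conj_mem n hn _, ?_⟩
      have e : ev x y (FreeGroup.of 0 * v) = z ^ k := by rw [map_mul, ev_zero, hG.rel]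
      rw [map_mul, map_mul, map_inv, e, ← hzk]
      simp only [Nat.cast_zero, zpow_zero]
      group
  have hz2 : ∀ t ∈ R, z⁻¹ * t * (z⁻¹)⁻¹ ∈ R := by
    apply closure_conj_le
    rintro _ ⟨i, hi, n, hn, rfl⟩
    apply Subgroup.subset_closure
    cases i with
    | succ i =>
      refine ⟨i, by omega, n, hn, ?_⟩
      push_cast
      rw [zpow_add, zpow_one]
      group
    | zero =>
      refine ⟨k - 1, by omega, (FreeGroup.of 0 * v)⁻¹ * n * ((FreeGroup.of 0 * v)⁻¹)⁻¹, NY_normal'.conj_mem n hn _, ?_⟩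
      have e : ev x y (FreeGroup.of 0 * v) = z ^ k := by rw [map_mul, ev_zero, hG.rel]
      have hzk : z ^ k = z ^ (((k - 1 : ℕ)) : ℤ) * z := by
        rw [zpow_natCast, ← pow_succ]
        congr 1
        omega
      have hgen : ∀ a : FreeGroup (Fin 2), ev x y (a⁻¹ * n * (a⁻¹)⁻¹) = (ev x y a)⁻¹ * ev x y n * ev x y a := by
        intro a; simp
      rw [hgen, e, hzk]
      simp only [Nat.cast_zero, zpow_zero]
      group
  have hzN : z ∈ Subgroup.normalizer (R : Set G) := by
    rw [Subgroup.mem_normalizer_iff]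
    intro a
    constructor
    · exact hz1 a
    · intro ha
      have := hz2 _ ha
      convert this using 1
      group
  have hvR : ev x y v ∈ R := ev_mem_TT hk hv
  have hyR : y ∈ R := by
    have := ev_mem_TT (k := k) (x := x) (y := y) (z := z) hk (n := FreeGroup.of 1)
      (Subgroup.subset_normalClosure (Set.mem_singleton _))
    rwa [ev_one] at this
  have hxN : x ∈ Subgroup.normalizer (R : Set G) := by
    have : x = z ^ k * (ev x y v)⁻¹ := by rw [hG.rel]; group
    rw [this]
    exact mul_mem (pow_mem hzN k) (inv_mem (Subgroup.le_normalizer hvR))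
  apply Subgroup.normalizer_eq_top_iff.1
  rw [eq_top_iff, ← hG.gen, Subgroup.closure_le]
  rintro a (rfl | rfl | rfl)
  · exact hxN
  · exact Subgroup.le_normalizer hyR
  · exact hzN

theorem ev_one_of_NY {H : Type} [Group H] (X : H) {v : FreeGroup (Fin 2)} (hv : v ∈ NY) : ev X 1 v = 1 := by
  have h : NY ≤ (ev X (1 : H)).ker := by
    unfold NY
    apply Subgroup.normalClosure_le_normal
    rw [Set.singleton_subset_iff]
    change ev X 1 (FreeGroup.of 1) = 1
    rw [ev_one]
  exact h hv

/-- the homomorphism `χ` and its kernel -/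
theorem exists_chi (hk : 0 < k) (hv : v ∈ NY) (hG : IsG v k G x y z) :
    ∃ χ : G →* Multiplicative ℤ, χ z = Multiplicative.ofAdd 1 ∧ ∀ g, χ g = 1 → g ∈ (EE k x y z).range := by
  obtain ⟨χ, h1, h2, h3⟩ := hG.univ (Multiplicative ℤ) (Multiplicative.ofAdd (k : ℤ)) 1 (Multiplicative.ofAdd 1) (by
    rw [ev_one_of_NY _ hv, mul_one, ← ofAdd_nsmul]
    simp)
  refine ⟨χ, h3, fun g hg => TT_le hk ?_⟩
  have hN := TT_normal hk hv hG
  let π := QuotientGroup.mk' (Subgroup.closure (TT k x y z))
  let ζ : G →* G ⧸ Subgroup.closure (TT k x y z) := (zpowersHom _ (π z)).comp χ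
  have hζ : ∀ g, ζ g = (π z) ^ (Multiplicative.toAdd (χ g)) := fun g => rfl
  have hvR : π (ev x y v) = 1 := (QuotientGroup.eq_one_iff _).2 (ev_mem_TT hk hv)
  have hyR : π y = 1 := by
    have := ev_mem_TT (k := k) (x := x) (y := y) (z := z) hk (n := FreeGroup.of 1)
      (Subgroup.subset_normalClosure (Set.mem_singleton _))
    rw [ev_one] at this
    exact (QuotientGroup.eq_one_iff _).2 this
  have heq : π = ζ := by
    apply hG.ext
    · rw [hζ, h1]
      have : π (z ^ k) = π x := by rw [hG.rel, map_mul, hvR, mul_one]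
      rw [← this, map_pow, toAdd_ofAdd, zpow_natCast]
    · rw [hζ, h2, hyR]; simp
    · rw [hζ, h3]; simp
  have h4 : π g = 1 := by rw [heq, hζ, hg]; simp
  exact (QuotientGroup.eq_one_iff _).1 h4

end

/-- a word involves finitely many letters -/
theorem exists_supp (f : FreeGroup ℤ) : ∃ M : ℕ, ∀ (H : Type) [Group H] (a b : FreeGroup ℤ →* H),
    (∀ m : ℤ, m.natAbs ≤ M → a (FreeGroup.of m) = b (FreeGroup.of m)) → a f = b f := by
  induction f using FreeGroup.induction_on with
  | C1 => exact ⟨0, fun H _ a b _ => by rw [map_one, map_one]⟩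
  | of i => exact ⟨i.natAbs, fun H _ a b h => h i le_rfl⟩
  | inv_of i _ =>
    refine ⟨i.natAbs, fun H _ a b h => ?_⟩
    rw [map_inv, map_inv]
    exact congrArg _ (h i le_rfl)
  | mul f g hf hg =>
    obtain ⟨M1, h1⟩ := hf
    obtain ⟨M2, h2⟩ := hg
    refine ⟨max M1 M2, fun H _ a b h => ?_⟩
    rw [map_mul, map_mul, h1 H a b (fun m hm => h m (hm.trans (le_max_left _ _))),
      h2 H a b (fun m hm => h m (hm.trans (le_max_right _ _)))]

/-- every nontrivial element of `G` survives in a nilpotent group -/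
theorem exists_nilpotent {v : FreeGroup (Fin 2)} {k : ℕ} {G : Type} [Group G] {x y z : G} (hk : 0 < k)
    (hv : v ∈ ⁅NY, NY⁆) (hG : IsG v k G x y z) (g : G) (hg : g ≠ 1) :
    ∃ (P : Type) (_ : Group P) (_ : Group.IsNilpotent P) (Φ : G →* P), Φ g ≠ 1 := by
  have hvN : v ∈ NY := Subgroup.commutator_le_left _ _ hv
  obtain ⟨χ, hχz, hχ⟩ := exists_chi hk hvN hG
  by_cases h0 : χ g = 1
  swap
  · exact ⟨Multiplicative ℤ, inferInstance, inferInstance, χ, h0⟩
  obtain ⟨f, rfl⟩ := hχ g h0
  have hf : f ≠ 1 := by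
    rintro rfl
    exact hg (map_one _)
  obtain ⟨p, hp, Θ, _, _, hΘ, τ, -, hτ⟩ := exists_pgroup f hf 0
  have : Fact p.Prime := ⟨hp⟩
  have : Group.IsNilpotent Θ := hΘ.isNilpotent
  obtain ⟨M, hM⟩ := exists_supp f
  let C := Multiplicative (ZMod (p ^ (2 * M + 1)))
  have hpM : 2 * M + 1 < p ^ (2 * M + 1) := Nat.lt_pow_self hp.one_lt
  have : NeZero (p ^ (2 * M + 1)) := ⟨(pow_pos hp.pos _).ne'⟩
  have hcinj : ∀ m ∈ {m : ℤ | m.natAbs ≤ M}, ∀ m' ∈ {m : ℤ | m.natAbs ≤ M},
      (Multiplicative.ofAdd (1 : ZMod (p ^ (2 * M + 1))) : C) ^ m = (Multiplicative.ofAdd (1 : ZMod (p ^ (2 * M + 1))) : C) ^ m' →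
      m = m' := by
    intro m hm m' hm' h
    rw [← ofAdd_zsmul, ← ofAdd_zsmul] at h
    have h1 := Multiplicative.ofAdd.injective h
    rw [zsmul_one, zsmul_one, ZMod.intCast_eq_intCast_iff_dvd_sub] at h1
    simp only [Set.mem_ofPred_eq] at hm hm'
    by_contra hne
    have h2 := Int.natAbs_dvd_natAbs.2 h1
    rw [Int.natAbs_natCast] at h2
    have h3 := Nat.le_of_dvd (by omega) h2
    omega
  obtain ⟨X, Y, -, hY, hrel, hem⟩ := wreath C (Multiplicative.ofAdd (1 : ZMod (p ^ (2 * M + 1)))) _ hcinj k v hv Θ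
    (fun m => τ (FreeGroup.of m))
  obtain ⟨Φ, hΦx, hΦy, hΦz⟩ := hG.univ (Θ ≀ᵣ C) X Y _ hrel
  have hP : IsPGroup p (Θ ≀ᵣ C) := by
    obtain ⟨n, hn⟩ := IsPGroup.iff_card.1 hΘ
    apply IsPGroup.of_card (n := n * p ^ (2 * M + 1) + (2 * M + 1))
    rw [RegularWreathProduct.card, hn]
    have : Nat.card C = p ^ (2 * M + 1) := by
      change Nat.card (ZMod (p ^ (2 * M + 1))) = _
      rw [Nat.card_zmod]
    rw [this, ← pow_mul, ← pow_add]
  refine ⟨Θ ≀ᵣ C, inferInstance, hP.isNilpotent, Φ, ?_⟩
  intro hΦ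
  have hright : ∀ a : FreeGroup ℤ, (Φ (EE k x y z a)).right = 1 := by
    have : (rightHom : Θ ≀ᵣ C →* C).comp (Φ.comp (EE k x y z)) = 1 := by
      refine FreeGroup.ext_hom _ _ fun m => ?_
      simp only [MonoidHom.comp_apply, EE, FreeGroup.lift_apply_of, MonoidHom.one_apply]
      rw [map_em, hΦx, hΦy, hΦz, em, map_mul, map_mul, map_inv]
      have : (rightHom : Θ ≀ᵣ C →* C) Y = 1 := hY
      rw [this, mul_one, mul_inv_cancel]
    intro a
    exact DFunLike.congr_fun this a
  let μ : FreeGroup ℤ →* Θ :=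
    { toFun := fun a => (Φ (EE k x y z a)).left 1
      map_one' := by simp
      map_mul' := by
        intro a b
        rw [map_mul, map_mul, left_one_mul (hright a)] }
  have hμ : μ f = τ f := by
    apply hM
    intro m hm
    change (Φ (EE k x y z (FreeGroup.of m))).left 1 = τ (FreeGroup.of m)
    rw [EE, FreeGroup.lift_apply_of, map_em, hΦx, hΦy, hΦz]
    exact hem m hm
  apply hτ
  rw [← hμ]
  change (Φ (EE k x y z f)).left 1 = 1
  rw [hΦ]
  rfl

end Pool.Agent.PFV
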