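import Pool.Agent.PFV.Nil
import Pool.Agent.PFV.Ker

/-! Quotients of `G` by verbal subgroups. -/

set_option autoImplicit false

namespace Pool.Agent.PFV

theorem equiv_of {A B : Type} [Group A] [Group B] (M : Subgroup A) (N : Subgroup B) [M.Normal] [N.Normal]
    (f : A →* B ⧸ N) (g : B →* A ⧸ M) (hf : M ≤ f.ker) (hg : N ≤ g.ker)
    (h1 : (QuotientGroup.lift M f hf).comp g = QuotientGroup.mk' N)
    (h2 : (QuotientGroup.lift N g hg).comp f = QuotientGroup.mk' M) : Nonempty (A ⧸ M ≃* B ⧸ N) := by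
  refine ⟨MonoidHom.toMulEquiv (QuotientGroup.lift M f hf) (QuotientGroup.lift N g hg) ?_ ?_⟩
  · apply QuotientGroup.monoidHom_ext
    ext a
    exact DFunLike.congr_fun h2 a
  · apply QuotientGroup.monoidHom_ext
    ext a
    exact DFunLike.congr_fun h1 a

/-- the lower central series (`LL H n = γ_{n+1}(H)`) -/
def LL (H : Type) [Group H] (n : ℕ) : Subgroup H := (⊤ : Subgroup H).lowerCentralSeries n

instance (H : Type) [Group H] (n : ℕ) : (LL H n).Normal := by
  unfold LL; infer_instance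

theorem map_LL {H H' : Type} [Group H] [Group H'] (f : H →* H') (n : ℕ) : (LL H n).map f ≤ LL H' n := by
  unfold LL
  rw [Subgroup.map_lowerCentralSeries]
  exact Subgroup.lowerCentralSeries_mono n le_top

theorem LL_quot (H : Type) [Group H] (n : ℕ) : LL (H ⧸ LL H n) n = ⊥ := by
  have h : (LL H n).map (QuotientGroup.mk' (LL H n)) = ⊥ := by
    rw [eq_bot_iff]
    rintro _ ⟨a, ha, rfl⟩
    exact (QuotientGroup.eq_one_iff a).2 ha
  rw [← h]
  unfold LL
  rw [Subgroup.map_lowerCentralSeries, ← MonoidHom.range_eq_map,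
    MonoidHom.range_eq_top.2 (QuotientGroup.mk'_surjective _)]

theorem LL_le_ker {H H' : Type} [Group H] [Group H'] {n : ℕ} (f : H →* H') (h' : LL H' n = ⊥) :
    LL H n ≤ f.ker := by
  intro a ha
  have := map_LL f n ⟨a, ha, rfl⟩
  rw [h', Subgroup.mem_bot] at this
  exact this

theorem nilp_quot (H : Type) [Group H] (n : ℕ) : Group.IsNilpotent (H ⧸ LL H n) :=
  Subgroup.nilpotent_iff_lowerCentralSeries.2 ⟨n, LL_quot H n⟩

variable {v : FreeGroup (Fin 2)} {k : ℕ} {G : Type} [Group G] {x y z : G}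

/-- the lower central quotients are those of the free group of rank two -/
theorem lcs_iso (hv : v ∈ commutator (FreeGroup (Fin 2))) (hG : IsG v k G x y z) (n : ℕ) :
    Nonempty (G ⧸ LL G n ≃* FreeGroup (Fin 2) ⧸ LL (FreeGroup (Fin 2)) n) := by
  let F := FreeGroup (Fin 2)
  have hn1 := nilp_quot F n
  have hn2 := nilp_quot G n
  let π := QuotientGroup.mk' (LL F n)
  let ρ := QuotientGroup.mk' (LL G n)
  obtain ⟨X, hX, -⟩ := nil_eq hv (F ⧸ LL F n) (π (FreeGroup.of 1)) (π (FreeGroup.of 0) ^ k)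
  obtain ⟨f, hfx, hfy, hfz⟩ := hG.univ (F ⧸ LL F n) X (π (FreeGroup.of 1)) (π (FreeGroup.of 0)) hX.symm
  let g : F →* G ⧸ LL G n := ev (ρ z) (ρ y)
  have hf : LL G n ≤ f.ker := LL_le_ker f (LL_quot F n)
  have hg : LL F n ≤ g.ker := LL_le_ker g (LL_quot G n)
  refine equiv_of (LL G n) (LL F n) f g hf hg ?_ ?_
  · apply ev_ext
    · change QuotientGroup.lift _ f hf (ev (ρ z) (ρ y) (FreeGroup.of 0)) = π (FreeGroup.of 0)
      rw [ev_zero, ← hfz]
      rfl
    · change QuotientGroup.lift _ f hf (ev (ρ z) (ρ y) (FreeGroup.of 1)) = π (FreeGroup.of 1)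
      rw [ev_one, ← hfy]
      rfl
  · set γ := QuotientGroup.lift (LL F n) g hg with hγ
    have g0 : γ (π (FreeGroup.of 0)) = ρ z := by
      change ev (ρ z) (ρ y) (FreeGroup.of 0) = _
      rw [ev_zero]
    have g1 : γ (π (FreeGroup.of 1)) = ρ y := by
      change ev (ρ z) (ρ y) (FreeGroup.of 1) = _
      rw [ev_one]
    apply hG.ext
    · change γ (f x) = ρ x
      rw [hfx]
      obtain ⟨X', -, huniq⟩ := nil_eq hv (G ⧸ LL G n) (ρ y) (ρ z ^ k)
      have e1 : γ X = X' := by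
        apply huniq
        rw [← g1, ← map_ev, ← map_mul, hX, map_pow, g0]
      have e2 : ρ x = X' := by
        apply huniq
        rw [← map_ev, ← map_mul, ← hG.rel, map_pow]
      rw [e1, e2]
    · change γ (f y) = ρ y
      rw [hfy, g1]
    · change γ (f z) = ρ z
      rw [hfz, g0]

/-- `v` in the verbal subgroup: the verbal quotients are free -/
theorem verbal_iso (V : Set (FreeGroup ℕ)) (hv : v ∈ verbal V (FreeGroup (Fin 2))) (hG : IsG v k G x y z) :
    Nonempty (G ⧸ verbal V G ≃* FreeGroup (Fin 2) ⧸ verbal V (FreeGroup (Fin 2))) := by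
  let F := FreeGroup (Fin 2)
  let π := QuotientGroup.mk' (verbal V F)
  let ρ := QuotientGroup.mk' (verbal V G)
  have hq1 := verbal_quot V F
  have hq2 := verbal_quot V G
  have hv1 : ∀ X Y : F ⧸ verbal V F, ev X Y v = 1 := by
    intro X Y
    have := mem_verbal_map (ev X Y) hv
    rw [hq1, Subgroup.mem_bot] at this
    exact this
  have hv2 : ∀ X Y : G ⧸ verbal V G, ev X Y v = 1 := by
    intro X Y
    have := mem_verbal_map (ev X Y) hv
    rw [hq2, Subgroup.mem_bot] at this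
    exact this
  obtain ⟨f, hfx, hfy, hfz⟩ := hG.univ (F ⧸ verbal V F) (π (FreeGroup.of 0) ^ k) (π (FreeGroup.of 1))
    (π (FreeGroup.of 0)) (by rw [hv1, mul_one])
  let g : F →* G ⧸ verbal V G := ev (ρ z) (ρ y)
  have hf : verbal V G ≤ f.ker := verbal_le_ker f hq1
  have hg : verbal V F ≤ g.ker := verbal_le_ker g hq2
  refine equiv_of (verbal V G) (verbal V F) f g hf hg ?_ ?_
  · apply ev_ext
    · change QuotientGroup.lift _ f hf (ev (ρ z) (ρ y) (FreeGroup.of 0)) = π (FreeGroup.of 0)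
      rw [ev_zero, ← hfz]
      rfl
    · change QuotientGroup.lift _ f hf (ev (ρ z) (ρ y) (FreeGroup.of 1)) = π (FreeGroup.of 1)
      rw [ev_one, ← hfy]
      rfl
  · set γ := QuotientGroup.lift (verbal V F) g hg with hγ
    have g0 : γ (π (FreeGroup.of 0)) = ρ z := by
      change ev (ρ z) (ρ y) (FreeGroup.of 0) = _
      rw [ev_zero]
    have g1 : γ (π (FreeGroup.of 1)) = ρ y := by
      change ev (ρ z) (ρ y) (FreeGroup.of 1) = _
      rw [ev_one]
    apply hG.ext
    · change γ (f x) = ρ x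
      rw [hfx, map_pow, g0, ← map_pow, hG.rel, map_mul, map_ev, hv2, mul_one]
    · change γ (f y) = ρ y
      rw [hfy, g1]
    · change γ (f z) = ρ z
      rw [hfz, g0]

theorem exp_verbal {V : Set (FreeGroup ℕ)} {e : ℕ} (he : FreeGroup.of 0 ^ e ∈ verbal V (FreeGroup ℕ)) (H : Type) [Group H]
    (hH : verbal V H = ⊥) (h : H) : h ^ e = 1 := by
  have := mem_verbal_map (FreeGroup.lift (fun _ : ℕ => h)) he
  rw [hH, Subgroup.mem_bot, map_pow, FreeGroup.lift_apply_of] at this
  exact this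

/-- exponent prime to `k`: the verbal quotients are free -/
theorem exponent_iso (V : Set (FreeGroup ℕ)) (e : ℕ) (hek : Nat.Coprime e k)
    (he : FreeGroup.of 0 ^ e ∈ verbal V (FreeGroup ℕ)) (hG : IsG v k G x y z) :
    Nonempty (G ⧸ verbal V G ≃* FreeGroup (Fin 2) ⧸ verbal V (FreeGroup (Fin 2))) := by
  let F := FreeGroup (Fin 2)
  let π := QuotientGroup.mk' (verbal V F)
  let ρ := QuotientGroup.mk' (verbal V G)
  have hq1 := verbal_quot V F
  have hq2 := verbal_quot V G
  obtain ⟨l, t, hlt⟩ : ∃ l t : ℤ, (k : ℤ) * l + e * t = 1 := by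
    refine ⟨Nat.gcdA k e, Nat.gcdB k e, ?_⟩
    rw [← Nat.gcd_eq_gcd_ab, hek.symm]
    rfl
  have key : ∀ (H : Type) [Group H], verbal V H = ⊥ → ∀ h : H, h ^ ((k : ℤ) * l) = h := by
    intro H _ hH h
    have h1 : (k : ℤ) * l = 1 - e * t := by linarith
    rw [h1, zpow_sub, zpow_one, zpow_mul, zpow_natCast, exp_verbal he H hH, one_zpow]
    simp
  let a := π (FreeGroup.of 0)
  let b := π (FreeGroup.of 1)
  obtain ⟨f, hfx, hfy, hfz⟩ := hG.univ (F ⧸ verbal V F) a b ((a * ev a b v) ^ l)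
    (by rw [← zpow_natCast, ← zpow_mul, mul_comm l]; exact key _ hq1 _)
  let g : F →* G ⧸ verbal V G := ev (ρ x) (ρ y)
  have hf : verbal V G ≤ f.ker := verbal_le_ker f hq1
  have hg : verbal V F ≤ g.ker := verbal_le_ker g hq2
  refine equiv_of (verbal V G) (verbal V F) f g hf hg ?_ ?_
  · apply ev_ext
    · change QuotientGroup.lift _ f hf (ev (ρ x) (ρ y) (FreeGroup.of 0)) = a
      rw [ev_zero, ← hfx]
      rfl
    · change QuotientGroup.lift _ f hf (ev (ρ x) (ρ y) (FreeGroup.of 1)) = b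
      rw [ev_one, ← hfy]
      rfl
  · set γ := QuotientGroup.lift (verbal V F) g hg with hγ
    have g0 : γ a = ρ x := by
      change ev (ρ x) (ρ y) (FreeGroup.of 0) = _
      rw [ev_zero]
    have g1 : γ b = ρ y := by
      change ev (ρ x) (ρ y) (FreeGroup.of 1) = _
      rw [ev_one]
    apply hG.ext
    · change γ (f x) = ρ x
      rw [hfx, g0]
    · change γ (f y) = ρ y
      rw [hfy, g1]
    · change γ (f z) = ρ z
      rw [hfz, map_zpow, map_mul, map_ev, g0, g1, ← map_ev, ← map_mul, ← hG.rel, map_pow,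
        ← zpow_natCast, ← zpow_mul]
      exact key _ hq2 _

/-- residual nilpotence -/
theorem res_nilp (hk : 0 < k) (hv : v ∈ ⁅NY, NY⁆) (hG : IsG v k G x y z) : ⨅ n, LL G n = ⊥ := by
  rw [eq_bot_iff]
  intro g hg
  rw [Subgroup.mem_bot]
  by_contra hne
  obtain ⟨P, _, hP, Φ, hΦ⟩ := exists_nilpotent hk hv hG g hne
  obtain ⟨n, hn⟩ := Subgroup.nilpotent_iff_lowerCentralSeries.1 hP
  have h1 : g ∈ LL G n := (Subgroup.mem_iInf.1 hg) n
  exact hΦ (LL_le_ker Φ hn h1)

theorem comm_of_NY {v : FreeGroup (Fin 2)} (hv : v ∈ ⁅NY, NY⁆) : v ∈ commutator (FreeGroup (Fin 2)) :=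
  Subgroup.commutator_mono le_top le_top hv

end Pool.Agent.PFV
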