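import Pool.Agent.PFV.Defs
import Pool.Agent.PFV.Res

/-! The choice of the word `v`. -/

set_option autoImplicit false

namespace Pool.Agent.PFV

open Equiv

theorem alt_comm {q : ℕ} (h5 : 5 ≤ q) :
    ⁅alternatingGroup (Fin q), alternatingGroup (Fin q)⁆ = alternatingGroup (Fin q) :=
  commutator_alternatingGroup_eq_self (by simpa using h5)

theorem alt_le {q : ℕ} (h5 : 5 ≤ q) (N : Subgroup (Perm (Fin q))) [N.Normal] (a : Perm (Fin q)) (ha : a ∈ N)
    (ha1 : a ≠ 1) : alternatingGroup (Fin q) ≤ N := by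
  apply Equiv.Perm.alternatingGroup_le_of_normal (by simpa using h5)
  exact ⟨⟨a, ha⟩, 1, fun h => ha1 (congrArg Subtype.val h)⟩

/-- a finite group embeds in every large symmetric group -/
theorem exists_emb (Θ : Type) [Group Θ] [Finite Θ] (q : ℕ) (hq : Nat.card Θ ≤ q) :
    ∃ f : Θ →* Perm (Fin q), Function.Injective f := by
  classical
  have : Fintype Θ := Fintype.ofFinite Θ
  obtain ⟨e⟩ : Nonempty (Θ ↪ Fin q) := by
    apply Function.Embedding.nonempty_of_card_le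
    rw [Fintype.card_fin, ← Nat.card_eq_fintype_card]
    exact hq
  refine ⟨(Equiv.Perm.viaEmbeddingHom e).comp (MulAction.toPermHom Θ Θ), ?_⟩
  rw [MonoidHom.coe_comp]
  exact (Equiv.Perm.viaEmbeddingHom_injective e).comp MulAction.toPerm_injective

/-- a nontrivial word is not a law of the large symmetric groups -/
theorem exists_perm (w : FreeGroup ℕ) (hw : w ≠ 1) : ∃ n : ℕ, ∀ q, n ≤ q →
    ∃ φ : FreeGroup ℕ →* Perm (Fin q), φ w ≠ 1 := by
  obtain ⟨p, hp, Θ, _, _, _, τ, -, hτ⟩ := exists_pgroup w hw 0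
  refine ⟨Nat.card Θ, fun q hq => ?_⟩
  obtain ⟨f, hf⟩ := exists_emb Θ q hq
  refine ⟨f.comp τ, fun h => hτ (hf ?_)⟩
  rw [map_one]
  exact h

theorem bound_all (𝒰 : Finset (Set (FreeGroup ℕ))) (h𝒰 : ∀ W ∈ 𝒰, ∃ w ∈ W, w ≠ 1) : ∃ n : ℕ, ∀ q, n ≤ q →
    ∀ W ∈ 𝒰, ∃ w ∈ W, ∃ φ : FreeGroup ℕ →* Perm (Fin q), φ w ≠ 1 := by
  classical
  induction 𝒰 using Finset.induction_on with
  | empty => exact ⟨0, fun q _ W hW => absurd hW (Finset.notMem_empty _)⟩
  | insert W 𝒰 _ ih =>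
    obtain ⟨n1, h1⟩ := ih (fun W' hW' => h𝒰 W' (Finset.mem_insert_of_mem hW'))
    obtain ⟨w, hw, hw1⟩ := h𝒰 W (Finset.mem_insert_self _ _)
    obtain ⟨n2, h2⟩ := exists_perm w hw1
    refine ⟨max n1 n2, fun q hq W' hW' => ?_⟩
    rcases Finset.mem_insert.1 hW' with h | h
    · subst h
      exact ⟨w, hw, h2 q ((le_max_right _ _).trans hq)⟩
    · exact h1 q ((le_max_left _ _).trans hq) W' h

theorem exists_K {A : Type} [Group A] {q : ℕ} (h5 : 5 ≤ q) (ρ : A →* Perm (Fin q)) (hρ : Function.Surjective ρ)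
    (N : Subgroup A) [N.Normal] (y : A) (hy : y ∈ N) (hy1 : ρ y ≠ 1)
    (𝒰 : Finset (Set (FreeGroup ℕ))) (h𝒰 : ∀ W ∈ 𝒰, ∃ w ∈ W, ∃ φ : FreeGroup ℕ →* Perm (Fin q), φ w ≠ 1) :
    ∃ K : Subgroup A, K.Normal ∧ K ≤ ⁅N, N⁆ ∧ (∀ W ∈ 𝒰, K ≤ ⁅verbal W A, verbal W A⁆) ∧ alternatingGroup (Fin q) ≤ K.map ρ := by
  classical
  have hmapN : ∀ M : Subgroup A, M.Normal → (M.map ρ).Normal := fun M hM => hM.map ρ hρ
  induction 𝒰 using Finset.induction_on with
  | empty =>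
    refine ⟨⁅N, N⁆, inferInstance, le_rfl, fun W hW => absurd hW (Finset.notMem_empty _), ?_⟩
    have := hmapN N inferInstance
    have h1 : alternatingGroup (Fin q) ≤ N.map ρ := alt_le h5 _ (ρ y) ⟨y, hy, rfl⟩ hy1
    rw [Subgroup.map_commutator, ← alt_comm h5]
    exact Subgroup.commutator_mono h1 h1
  | insert W 𝒰 _ ih =>
    obtain ⟨K, hK, hKN, hKU, hKA⟩ := ih (fun W' hW' => h𝒰 W' (Finset.mem_insert_of_mem hW'))
    obtain ⟨w, hw, φ, hφ⟩ := h𝒰 W (Finset.mem_insert_self _ _)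
    have h0 : alternatingGroup (Fin q) ≤ (verbal W A).map ρ :=
      (alt_le h5 (verbal W (Perm (Fin q))) (φ w) (Subgroup.subset_closure ⟨w, hw, φ, rfl⟩) hφ).trans
        (verbal_surj W ρ hρ)
    have h1 : alternatingGroup (Fin q) ≤ ⁅verbal W A, verbal W A⁆.map ρ := by
      rw [Subgroup.map_commutator, ← alt_comm h5]
      exact Subgroup.commutator_mono h0 h0
    refine ⟨K ⊓ ⁅verbal W A, verbal W A⁆, inferInstance, inf_le_left.trans hKN, ?_, ?_⟩
    · intro W' hW'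
      rcases Finset.mem_insert.1 hW' with h | h
      · subst h; exact inf_le_right
      · exact inf_le_left.trans (hKU W' h)
    · calc alternatingGroup (Fin q) = ⁅alternatingGroup (Fin q), alternatingGroup (Fin q)⁆ := (alt_comm h5).symm
        _ ≤ ⁅K.map ρ, ⁅verbal W A, verbal W A⁆.map ρ⁆ := Subgroup.commutator_mono hKA h1
        _ = ⁅K, ⁅verbal W A, verbal W A⁆⁆.map ρ := (Subgroup.map_commutator _ _ _).symm
        _ ≤ (K ⊓ ⁅verbal W A, verbal W A⁆).map ρ := Subgroup.map_mono (Subgroup.commutator_le_inf _ _)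

/-- the word `v` -/
theorem exists_v (𝒰 : Finset (Set (FreeGroup ℕ))) (h𝒰 : ∀ W ∈ 𝒰, ∃ w ∈ W, w ≠ 1) (p : ℕ) [Fact p.Prime] :
    ∃ v : FreeGroup (Fin 2), v ∈ ⁅NY, NY⁆ ∧
      (∀ W ∈ 𝒰, v ∈ ⁅verbal W (FreeGroup (Fin 2)), verbal W (FreeGroup (Fin 2))⁆) ∧
      ∃ (S : Type) (_ : Group S) (_ : Finite S) (ρ : FreeGroup (Fin 2) →* S)
        (j : Multiplicative (ZMod p × ZMod p) →* S),
        Function.Surjective ρ ∧ Function.Injective j ∧ ρ (FreeGroup.of 0 * v) = 1 := by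
  obtain ⟨n, hn⟩ := bound_all 𝒰 h𝒰
  obtain ⟨q, hq1, hq⟩ := Nat.exists_infinite_primes (n + 5 + Nat.card (Multiplicative (ZMod p × ZMod p)))
  have h5 : 5 ≤ q := by omega
  have hodd : Odd q := hq.odd_of_ne_two (by omega)
  have : NeZero q := ⟨by omega⟩
  have : Fact (1 < q) := ⟨by omega⟩
  let ρ : FreeGroup (Fin 2) →* Perm (Fin q) := ev (finRotate q) (swap 0 ⟨1, by omega⟩)
  have h01 : (0 : Fin q) ≠ ⟨1, by omega⟩ := by
    intro h
    have := congrArg Fin.val h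
    simp at this
  have hρ : Function.Surjective ρ := by
    have h1 := Equiv.Perm.closure_prime_cycle_swap (α := Fin q) (σ := finRotate q) (τ := swap 0 ⟨1, by omega⟩)
      (by simpa using hq) (isCycle_finRotate_of_le (by omega)) (support_finRotate_of_le (by omega))
      ⟨0, ⟨1, by omega⟩, h01, rfl⟩
    rw [← MonoidHom.range_eq_top, eq_top_iff, ← h1, Subgroup.closure_le]
    rintro a (rfl | rfl)
    · exact ⟨FreeGroup.of 0, by simp [ρ]⟩
    · exact ⟨FreeGroup.of 1, by simp [ρ]⟩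
  obtain ⟨K, -, hKN, hKU, hKA⟩ := exists_K h5 ρ hρ NY (FreeGroup.of 1)
    (Subgroup.subset_normalClosure (Set.mem_singleton _)) (by
      simp only [ρ, ev_one]
      intro h
      exact h01 (Equiv.swap_eq_one_iff.1 h)) 𝒰 (hn q (by omega))
  have hrot : (finRotate q)⁻¹ ∈ alternatingGroup (Fin q) := by
    apply inv_mem
    rw [Equiv.Perm.mem_alternatingGroup, sign_finRotate]
    obtain ⟨m, hm⟩ := hodd
    rw [hm, Nat.add_sub_cancel, pow_mul]
    simp
  obtain ⟨v, hvK, hv⟩ := hKA hrot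
  obtain ⟨j, hj⟩ := exists_emb (Multiplicative (ZMod p × ZMod p)) q (by omega)
  refine ⟨v, hKN hvK, fun W hW => hKU W hW hvK, Perm (Fin q), inferInstance, inferInstance, ρ, j, hρ, hj, ?_⟩
  rw [map_mul, hv]
  simp [ρ]

end Pool.Agent.PFV
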