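import Pool.Agent.PFV.NilU
import Pool.Agent.PFV.Sym
import Pool.Agent.PFV.Det

/-! Assembly. -/

set_option autoImplicit false

namespace Pool.Agent.PFV

/-- the group `⟨x, y, z | z^k = x v(x, y)⟩` -/
abbrev GG (k : ℕ) (v : FreeGroup (Fin 2)) : Type := PresentedGroup {rr v k}

/-- `G` and the free group of rank two have isomorphic `V`-verbal quotients -/
def Same (V : Set (FreeGroup ℕ)) (G : Type) [Group G] : Prop :=
  Nonempty (G ⧸ verbal V G ≃* FreeGroup (Fin 2) ⧸ verbal V (FreeGroup (Fin 2)))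

/-- the properties of the word `v` -/
def Good (𝒰 : Finset (Set (FreeGroup ℕ))) (k : ℕ) (v : FreeGroup (Fin 2)) : Prop :=
  v ∈ ⁅NY, NY⁆ ∧ (∀ W ∈ 𝒰, v ∈ ⁅verbal W (FreeGroup (Fin 2)), verbal W (FreeGroup (Fin 2))⁆) ∧
    ∃ (Q : Type) (_ : Group Q) (_ : Finite Q), ¬ Same (laws Q) (GG k v)

theorem exists_good (𝒰 : Finset (Set (FreeGroup ℕ))) (h𝒰 : ∀ W ∈ 𝒰, ∃ w ∈ W, w ≠ 1) (k : ℕ) (hk : 2 ≤ k) :
    ∃ v, Good 𝒰 k v := by
  have hp : (k.minFac).Prime := Nat.minFac_prime (by omega)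
  have : Fact (k.minFac).Prime := ⟨hp⟩
  obtain ⟨v, hv1, hv2, S, _, _, ρ, j, hρ, hj, hv3⟩ := exists_v 𝒰 h𝒰 k.minFac
  obtain ⟨Q, _, _, hQ⟩ := detect (isG_rr v k) k.minFac (Nat.minFac_dvd k) S ρ hρ j hj hv3
  exact ⟨v, hv1, hv2, Q, inferInstance, inferInstance, fun ⟨e⟩ => hQ.false e⟩

theorem same_of_equiv {G G' : Type} [Group G] [Group G'] (e : G ≃* G') (V : Set (FreeGroup ℕ)) (h : Same V G') :
    Same V G := by
  obtain ⟨a⟩ := h
  refine ⟨(QuotientGroup.congr _ _ e ?_).trans a⟩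
  apply le_antisymm
  · exact map_verbal_le V e.toMonoidHom
  · exact verbal_surj V e.toMonoidHom e.surjective

theorem exists_seq (𝒰 : Finset (Set (FreeGroup ℕ))) (h𝒰 : ∀ W ∈ 𝒰, ∃ w ∈ W, w ≠ 1) (k : ℕ) (hk : 2 ≤ k) :
    ∃ v : ℕ → FreeGroup (Fin 2), (∀ n, Good 𝒰 k (v n)) ∧
      ∀ m n, m ≠ n → IsEmpty (GG k (v m) ≃* GG k (v n)) := by
  classical
  obtain ⟨v, hv1, hv2⟩ := exists_seq_of_forall_finset_exists (Good 𝒰 k)
    (fun v v' => IsEmpty (GG k v ≃* GG k v')) (by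
      intro s hs
      have hQ : ∀ v : FreeGroup (Fin 2), ∃ V : Set (FreeGroup ℕ), v ∈ s → ((∃ w ∈ V, w ≠ 1) ∧ ¬ Same V (GG k v)) := by
        intro v
        by_cases hv : v ∈ s
        · obtain ⟨-, -, Q, _, _, hQ⟩ := hs v hv
          exact ⟨laws Q, fun _ => ⟨laws_proper Q, hQ⟩⟩
        · exact ⟨∅, fun h => absurd h hv⟩
      choose V hV using hQ
      obtain ⟨v', h1, h2, h3⟩ := exists_good (𝒰 ∪ s.image V) (by
        intro W hW
        rcases Finset.mem_union.1 hW with h | h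
        · exact h𝒰 W h
        · obtain ⟨v, hv, rfl⟩ := Finset.mem_image.1 h
          exact (hV v hv).1) k hk
      refine ⟨v', ⟨h1, fun W hW => h2 W (Finset.mem_union_left _ hW), h3⟩, fun v hv => ⟨fun e => ?_⟩⟩
      apply (hV v hv).2
      apply same_of_equiv e
      exact verbal_iso (V v) (Subgroup.commutator_le_left _ _
        (h2 (V v) (Finset.mem_union_right _ (Finset.mem_image_of_mem V hv)))) (isG_rr v' k))
  refine ⟨v, hv1, fun m n hmn => ?_⟩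
  rcases lt_or_gt_of_ne hmn with h | h
  · exact hv2 m n h
  · exact ⟨fun e => (hv2 n m h).false e.symm⟩

theorem main (𝒰 : Finset (Set (FreeGroup ℕ))) (h𝒰 : ∀ W ∈ 𝒰, ∃ w ∈ W, w ≠ 1) (k : ℕ) (hk : 2 ≤ k) :
    ∃ v : ℕ → FreeGroup (Fin 2),
      (∀ n, (⨅ i, LL (GG k (v n)) i = ⊥) ∧
        (∀ i, Nonempty (GG k (v n) ⧸ LL (GG k (v n)) i ≃* FreeGroup (Fin 2) ⧸ LL (FreeGroup (Fin 2)) i)) ∧
        (∀ X : Type, IsEmpty (GG k (v n) ≃* FreeGroup X)) ∧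
        (∀ V : Set (FreeGroup ℕ),
          ((∃ W ∈ 𝒰, ∃ c, (verbal W (FreeGroup ℕ)).lowerCentralSeries c ≤ verbal V (FreeGroup ℕ)) ∨
            (∃ e : ℕ, Nat.Coprime e k ∧ FreeGroup.of 0 ^ e ∈ verbal V (FreeGroup ℕ))) →
          Same V (GG k (v n))) ∧
        (∃ (Q : Type) (_ : Group Q) (_ : Finite Q), ¬ Same (laws Q) (GG k (v n)))) ∧
      (∀ m n, m ≠ n → IsEmpty (GG k (v m) ≃* GG k (v n))) := by
  obtain ⟨v, hv, hne⟩ := exists_seq 𝒰 h𝒰 k hk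
  refine ⟨v, fun n => ?_, hne⟩
  obtain ⟨h1, h2, Q, _, _, hQ⟩ := hv n
  have hG := isG_rr (v n) k
  have hc := comm_of_NY h1
  refine ⟨res_nilp (by omega) h1 hG, fun i => lcs_iso hc hG i, fun X => ?_, ?_, Q, inferInstance, inferInstance, hQ⟩
  · exact not_free hG hc (laws Q) ⟨fun e => hQ ⟨e⟩⟩ X
  · rintro V (⟨W, hW, c, h⟩ | ⟨e, he, h⟩)
    · exact nilU_iso W V c h (h2 W hW) hG
    · exact exponent_iso V e he h hG

end Pool.Agent.PFV
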