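import Pool.Agent.PFV.Defs

/-! Unique solvability of `x v(x, y) = c` in nilpotent groups for `v` in the commutator subgroup. -/

set_option autoImplicit false

namespace Pool.Agent.PFV

theorem ev_eq_mod_center {P : Type} [Group P] {X X' Y : P} {v : FreeGroup (Fin 2)}
    (hv : v ∈ commutator (FreeGroup (Fin 2)))
    (h : (QuotientGroup.mk' (Subgroup.center P)) X = (QuotientGroup.mk' (Subgroup.center P)) X') :
    ev X' Y v = ev X Y v := by
  refine eq_on_comm (ev X Y) (ev X' Y) ⊤ ⊤ (Subgroup.center P) le_top ?_ (fun _ _ => Subgroup.mem_top _) ?_ v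
    (by simpa [commutator] using hv)
  · intro b _ c hc
    exact (Subgroup.mem_center_iff.1 hc b)
  · intro n _
    have : (QuotientGroup.mk' (Subgroup.center P)) (ev X Y n) = (QuotientGroup.mk' (Subgroup.center P)) (ev X' Y n) := by
      rw [map_ev, map_ev, h]
    exact QuotientGroup.eq.1 this

theorem nil_eq {v : FreeGroup (Fin 2)} (hv : v ∈ commutator (FreeGroup (Fin 2))) (P : Type) [Group P]
    [Group.IsNilpotent P] : ∀ y c : P, ∃! x : P, x * ev x y v = c := by
  refine Group.nilpotent_center_quotient_ind (P := fun P _ _ => ∀ y c : P, ∃! x : P, x * ev x y v = c) P ?_ ?_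
  · intro G _ _ y c
    exact ⟨1, Subsingleton.elim _ _, fun _ _ => Subsingleton.elim _ _⟩
  · intro G _ _ ih y c
    set π := QuotientGroup.mk' (Subgroup.center G) with hπ
    obtain ⟨xb, hxb, huniq⟩ := ih (π y) (π c)
    obtain ⟨x0, rfl⟩ := QuotientGroup.mk'_surjective (Subgroup.center G) xb
    rw [← hπ] at hxb huniq
    have hxb' : π (x0 * ev x0 y v) = π c := by
      rw [map_mul, map_ev]
      exact hxb
    have hd : x0 * ev x0 y v * c⁻¹ ∈ Subgroup.center G := by
      have : π (x0 * ev x0 y v * c⁻¹) = 1 := by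
        rw [map_mul, hxb', map_inv, mul_inv_cancel]
      exact (QuotientGroup.eq_one_iff _).1 this
    set d := x0 * ev x0 y v * c⁻¹ with hdd
    have hπd : π d = 1 := (QuotientGroup.eq_one_iff _).2 hd
    refine ⟨d⁻¹ * x0, ?_, ?_⟩
    · change d⁻¹ * x0 * ev (d⁻¹ * x0) y v = c
      have e : ev (d⁻¹ * x0) y v = ev x0 y v := by
        apply ev_eq_mod_center hv
        rw [← hπ, map_mul, map_inv, hπd, inv_one, one_mul]
      rw [e, mul_assoc, inv_mul_eq_iff_eq_mul, hdd]
      group
    · have huni : ∀ x1 x2 : G, x1 * ev x1 y v = c → x2 * ev x2 y v = c → x1 = x2 := by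
        intro x1 x2 h1 h2
        have k1 := huniq (π x1) (by beta_reduce; rw [← map_ev, ← map_mul, h1])
        have k2 := huniq (π x2) (by beta_reduce; rw [← map_ev, ← map_mul, h2])
        have e : ev x1 y v = ev x2 y v := ev_eq_mod_center hv (k2.trans k1.symm)
        rw [← h2, e] at h1
        exact mul_right_cancel h1
      intro x hx
      apply huni x _ hx
      have e : ev (d⁻¹ * x0) y v = ev x0 y v := by
        apply ev_eq_mod_center hv
        rw [← hπ, map_mul, map_inv, hπd, inv_one, one_mul]
      rw [e, mul_assoc, inv_mul_eq_iff_eq_mul, hdd]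
      group

end Pool.Agent.PFV
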