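import Pool.Agent.PFV.Iso

/-! Nilpotent-by-`U` varieties. -/

set_option autoImplicit false

namespace Pool.Agent.PFV

theorem lcs_normal {P : Type} [Group P] (S : Subgroup P) [S.Normal] (n : ℕ) : (S.lowerCentralSeries n).Normal := by
  induction n with
  | zero => rw [Subgroup.lowerCentralSeries_zero]; infer_instance
  | succ n ih => rw [Subgroup.lowerCentralSeries_succ]; infer_instance

theorem verbal_map {H H' : Type} [Group H] [Group H'] (W : Set (FreeGroup ℕ)) (f : H →* H')
    (hf : Function.Surjective f) : (verbal W H).map f = verbal W H' :=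
  le_antisymm (map_verbal_le W f) (verbal_surj W f hf)

/-- unique solvability in nilpotent-by-`U` groups -/
theorem nilU_eq (W : Set (FreeGroup ℕ)) {v : FreeGroup (Fin 2)}
    (hv : v ∈ ⁅verbal W (FreeGroup (Fin 2)), verbal W (FreeGroup (Fin 2))⁆) (c : ℕ) :
    ∀ (P : Type) [Group P], (verbal W P).lowerCentralSeries c = ⊥ → ∀ y d : P, ∃! x : P, x * ev x y v = d := by
  have hvW : v ∈ verbal W (FreeGroup (Fin 2)) := Subgroup.commutator_le_left _ _ hv
  induction c with
  | zero =>
    intro P _ h y d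
    rw [Subgroup.lowerCentralSeries_zero] at h
    have h1 : ∀ x : P, ev x y v = 1 := by
      intro x
      have := mem_verbal_map (ev x y) hvW
      rw [h, Subgroup.mem_bot] at this
      exact this
    refine ⟨d, by simp [h1], fun x hx => ?_⟩
    beta_reduce at hx
    rw [h1, mul_one] at hx
    exact hx
  | succ c ih =>
    intro P _ h y d
    set K := (verbal W P).lowerCentralSeries c with hK
    have hKn : K.Normal := lcs_normal _ _
    have hKB : K ≤ verbal W P := Subgroup.lowerCentralSeries_le_self _ _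
    rw [Subgroup.lowerCentralSeries_succ, ← hK, Subgroup.commutator_eq_bot_iff_le_centralizer] at h
    have hc : ∀ b ∈ verbal W P, ∀ a ∈ K, b * a = a * b := by
      intro b hb a ha
      exact Subgroup.mem_centralizer_iff.1 (h ha) b hb
    let π := QuotientGroup.mk' K
    have hπ : Function.Surjective π := QuotientGroup.mk'_surjective K
    have hquot : (verbal W (P ⧸ K)).lowerCentralSeries c = ⊥ := by
      rw [← verbal_map W π hπ, ← Subgroup.map_lowerCentralSeries, ← hK, eq_bot_iff]
      rintro _ ⟨a, ha, rfl⟩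
      exact (QuotientGroup.eq_one_iff a).2 ha
    have hsame : ∀ x x' : P, π x = π x' → ev x' y v = ev x y v := by
      intro x x' hx
      refine eq_on_comm (ev x y) (ev x' y) (verbal W (FreeGroup (Fin 2))) (verbal W P) K hKB hc
        (fun n hn => mem_verbal_map _ hn) ?_ v hv
      intro n _
      have : π (ev x y n) = π (ev x' y n) := by rw [map_ev, map_ev, hx]
      exact QuotientGroup.eq.1 this
    obtain ⟨xb, hxb, huniq⟩ := ih (P ⧸ K) hquot (π y) (π d)
    obtain ⟨x0, rfl⟩ := hπ xb
    have hxb' : π (x0 * ev x0 y v) = π d := by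
      rw [map_mul, map_ev]
      exact hxb
    set e := x0 * ev x0 y v * d⁻¹ with he
    have hπe : π e = 1 := by
      rw [he, map_mul, hxb', map_inv, mul_inv_cancel]
    have hsol : e⁻¹ * x0 * ev (e⁻¹ * x0) y v = d := by
      rw [hsame x0 (e⁻¹ * x0) (by rw [map_mul, map_inv, hπe, inv_one, one_mul]), mul_assoc,
        inv_mul_eq_iff_eq_mul, he]
      group
    refine ⟨e⁻¹ * x0, hsol, fun x hx => ?_⟩
    have k1 := huniq (π x) (by beta_reduce; rw [← map_ev, ← map_mul, hx])
    have k2 := huniq (π (e⁻¹ * x0)) (by beta_reduce; rw [← map_ev, ← map_mul, hsol])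
    have h3 : ev x y v = ev (e⁻¹ * x0) y v := hsame _ _ (k2.trans k1.symm)
    have hx' : x * ev x y v = d := hx
    rw [← hsol, h3] at hx'
    exact mul_right_cancel hx'

/-- transfer of the condition `γ_{c+1}(W(F_∞)) ≤ V(F_∞)` to countable groups -/
theorem lcs_le {W V : Set (FreeGroup ℕ)} {c : ℕ}
    (h : (verbal W (FreeGroup ℕ)).lowerCentralSeries c ≤ verbal V (FreeGroup ℕ)) (H : Type) [Group H]
    (f : FreeGroup ℕ →* H) (hf : Function.Surjective f) : (verbal W H).lowerCentralSeries c ≤ verbal V H := by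
  rw [← verbal_map W f hf, ← Subgroup.map_lowerCentralSeries]
  exact (Subgroup.map_mono h).trans (map_verbal_le V f)

theorem exists_surj {H : Type} [Group H] (a b c : H) (h : Subgroup.closure {a, b, c} = ⊤) :
    ∃ f : FreeGroup ℕ →* H, Function.Surjective f := by
  refine ⟨FreeGroup.lift (fun n => if n = 0 then a else if n = 1 then b else c), ?_⟩
  rw [← MonoidHom.range_eq_top, eq_top_iff, ← h, Subgroup.closure_le]
  rintro g (rfl | rfl | rfl)
  · exact ⟨FreeGroup.of 0, by simp⟩
  · exact ⟨FreeGroup.of 1, by simp⟩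
  · exact ⟨FreeGroup.of 2, by simp⟩

variable {v : FreeGroup (Fin 2)} {k : ℕ} {G : Type} [Group G] {x y z : G}

/-- for nilpotent-by-`U` varieties the verbal quotients are free -/
theorem nilU_iso (W V : Set (FreeGroup ℕ)) (c : ℕ)
    (h : (verbal W (FreeGroup ℕ)).lowerCentralSeries c ≤ verbal V (FreeGroup ℕ))
    (hv : v ∈ ⁅verbal W (FreeGroup (Fin 2)), verbal W (FreeGroup (Fin 2))⁆) (hG : IsG v k G x y z) :
    Nonempty (G ⧸ verbal V G ≃* FreeGroup (Fin 2) ⧸ verbal V (FreeGroup (Fin 2))) := by
  let F := FreeGroup (Fin 2)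
  let π := QuotientGroup.mk' (verbal V F)
  let ρ := QuotientGroup.mk' (verbal V G)
  have hq1 := verbal_quot V F
  have hq2 := verbal_quot V G
  have hn1 : (verbal W (F ⧸ verbal V F)).lowerCentralSeries c = ⊥ := by
    obtain ⟨f, hf⟩ := exists_surj (FreeGroup.of 0 : F) (FreeGroup.of 1) (FreeGroup.of 1) (by
      rw [eq_top_iff, ← FreeGroup.closure_range_of, Subgroup.closure_le]
      rintro _ ⟨i, rfl⟩
      apply Subgroup.subset_closure
      fin_cases i <;> simp)
    have := lcs_le h (F ⧸ verbal V F) (π.comp f) ((QuotientGroup.mk'_surjective _).comp hf)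
    rw [hq1] at this
    exact eq_bot_iff.2 this
  have hn2 : (verbal W (G ⧸ verbal V G)).lowerCentralSeries c = ⊥ := by
    obtain ⟨f, hf⟩ := exists_surj x y z hG.gen
    have := lcs_le h (G ⧸ verbal V G) (ρ.comp f) ((QuotientGroup.mk'_surjective _).comp hf)
    rw [hq2] at this
    exact eq_bot_iff.2 this
  obtain ⟨X, hX, -⟩ := nilU_eq W hv c (F ⧸ verbal V F) hn1 (π (FreeGroup.of 1)) (π (FreeGroup.of 0) ^ k)
  obtain ⟨f, hfx, hfy, hfz⟩ := hG.univ (F ⧸ verbal V F) X (π (FreeGroup.of 1)) (π (FreeGroup.of 0)) hX.symm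
  let g : F →* G ⧸ verbal V G := ev (ρ z) (ρ y)
  have hf : verbal V G ≤ f.ker := verbal_le_ker f hq1
  have hg : verbal V F ≤ g.ker := verbal_le_ker g hq2
  refine equiv_of (verbal V G) (verbal V F) f g hf hg ?_ ?_
  · apply ev_ext
    · change QuotientGroup.lift _ f hf (ev (ρ z) (ρ y) (FreeGroup.of 0)) = π (FreeGroup.of 0)
      rw [ev_zero, ← hfz]
      rfl
    · change QuotientGroup.lift _ f hf (ev (ρ z) (ρ y) (FreeGroup.of 1)) = π (FreeGroup.of 1)
      rw [ev_one, ← hfy]
      rfl
  · set γ := QuotientGroup.lift (verbal V F) g hg with hγ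
    have g0 : γ (π (FreeGroup.of 0)) = ρ z := by
      change ev (ρ z) (ρ y) (FreeGroup.of 0) = _
      rw [ev_zero]
    have g1 : γ (π (FreeGroup.of 1)) = ρ y := by
      change ev (ρ z) (ρ y) (FreeGroup.of 1) = _
      rw [ev_one]
    apply hG.ext
    · change γ (f x) = ρ x
      rw [hfx]
      obtain ⟨X', -, huniq⟩ := nilU_eq W hv c (G ⧸ verbal V G) hn2 (ρ y) (ρ z ^ k)
      have e1 : γ X = X' := by
        apply huniq
        rw [← g1, ← map_ev, ← map_mul, hX, map_pow, g0]
      have e2 : ρ x = X' := by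
        apply huniq
        rw [← map_ev, ← map_mul, ← hG.rel, map_pow]
      rw [e1, e2]
    · change γ (f y) = ρ y
      rw [hfy, g1]
    · change γ (f z) = ρ z
      rw [hfz, g0]

end Pool.Agent.PFV
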