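import Pool.Agent.PFV.Defs

/-! The wreath product lemma. -/

set_option autoImplicit false

namespace Pool.Agent.PFV

open RegularWreathProduct

variable {Θ C : Type} [Group Θ] [Group C]

/-- the map of wreath products induced by `Θ → Θ / center` -/
def wmap (Θ C : Type) [Group Θ] [Group C] : (Θ ≀ᵣ C) →* ((Θ ⧸ Subgroup.center Θ) ≀ᵣ C) where
  toFun a := ⟨fun q => (a.left q : Θ ⧸ Subgroup.center Θ), a.right⟩
  map_one' := rfl
  map_mul' _ _ := rfl

theorem mem_ker_wmap {a : Θ ≀ᵣ C} : a ∈ (wmap Θ C).ker ↔ a.right = 1 ∧ ∀ q, a.left q ∈ Subgroup.center Θ := by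
  rw [MonoidHom.mem_ker]
  constructor
  · intro h
    refine ⟨congrArg RegularWreathProduct.right h, fun q => ?_⟩
    have := congrFun (congrArg RegularWreathProduct.left h) q
    exact (QuotientGroup.eq_one_iff _).1 this
  · rintro ⟨h1, h2⟩
    ext q
    · exact (QuotientGroup.eq_one_iff _).2 (h2 q)
    · exact h1

theorem mem_ker_right {a : Θ ≀ᵣ C} : a ∈ (rightHom : Θ ≀ᵣ C →* C).ker ↔ a.right = 1 := Iff.rfl

theorem base_comm {b c : Θ ≀ᵣ C} (hb : b ∈ (rightHom : Θ ≀ᵣ C →* C).ker) (hc : c ∈ (wmap Θ C).ker) :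
    b * c = c * b := by
  rw [mem_ker_right] at hb
  rw [mem_ker_wmap] at hc
  ext q
  · simp only [mul_left, Pi.mul_apply, hb, hc.1, inv_one, one_mul]
    exact Subgroup.mem_center_iff.1 (hc.2 q) _
  · simp only [mul_right, hb, hc.1]

/-- evaluation of the base group at `1` is multiplicative -/
theorem left_one_mul {a b : Θ ≀ᵣ C} (ha : a.right = 1) : (a * b).left 1 = a.left 1 * b.left 1 := by
  simp [ha]

/-- the conjugating elements -/
def gm {H : Type} [Group H] (k : ℕ) (X Z : H) (m : ℤ) : H := Z ^ (m % k) * X ^ (m / k)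

/-- the elements `e_m` -/
def em {H : Type} [Group H] (k : ℕ) (X Y Z : H) (m : ℤ) : H := gm k X Z m * Y * (gm k X Z m)⁻¹

theorem map_em {H H' : Type} [Group H] [Group H'] (f : H →* H') (k : ℕ) (X Y Z : H) (m : ℤ) :
    f (em k X Y Z m) = em k (f X) (f Y) (f Z) m := by
  simp [em, gm, map_zpow]

theorem gm_right (k : ℕ) (X : Θ ≀ᵣ C) (c : C) (hX : X.right = c ^ k) (m : ℤ) :
    (gm k X (inl c : Θ ≀ᵣ C) m).right = c ^ m := by
  have h : (rightHom : Θ ≀ᵣ C →* C) (gm k X (inl c : Θ ≀ᵣ C) m) = c ^ m := by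
    have hX' : (rightHom : Θ ≀ᵣ C →* C) X = c ^ k := hX
    have hc' : (rightHom : Θ ≀ᵣ C →* C) (inl c) = c := rfl
    rw [gm, map_mul, map_zpow, map_zpow, hX', hc', ← zpow_natCast, ← zpow_mul, ← zpow_add,
      Int.emod_add_mul_ediv]
  exact h

theorem conj_left {g Δ : Θ ≀ᵣ C} (hΔ : Δ ∈ (wmap Θ C).ker) :
    (g * Δ * g⁻¹).left 1 = Δ.left g.right⁻¹ := by
  rw [mem_ker_wmap] at hΔ
  have hc := Subgroup.mem_center_iff.1 (hΔ.2 g.right⁻¹)
  simp only [mul_left, inv_left, Pi.mul_apply, mul_right, Pi.inv_apply, hΔ.1, mul_one]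
  rw [mul_inv_cancel, hc, mul_inv_cancel_right]

theorem ev_right {X Y : Θ ≀ᵣ C} (hY : Y.right = 1) {v : FreeGroup (Fin 2)} (hv : v ∈ NY) :
    (ev X Y v).right = 1 := by
  have h : NY ≤ ((rightHom : Θ ≀ᵣ C →* C).comp (ev X Y)).ker := by
    unfold NY
    apply Subgroup.normalClosure_le_normal
    rw [Set.singleton_subset_iff]
    change (rightHom : Θ ≀ᵣ C →* C) (ev X Y (FreeGroup.of 1)) = 1
    rw [ev_one]
    exact hY
  exact h hv

theorem wreath (C : Type) [Group C] (c : C) (s : Set ℤ) (hs : ∀ m ∈ s, ∀ m' ∈ s, c ^ m = c ^ m' → m = m')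
    (k : ℕ) (v : FreeGroup (Fin 2)) (hv : v ∈ ⁅NY, NY⁆) (Θ : Type) [Group Θ] [Group.IsNilpotent Θ] :
    ∀ τ : ℤ → Θ, ∃ X Y : Θ ≀ᵣ C, X.right = c ^ k ∧ Y.right = 1 ∧ (inl c : Θ ≀ᵣ C) ^ k = X * ev X Y v ∧
      ∀ m ∈ s, (em k X Y (inl c) m).left 1 = τ m := by
  have hvN : v ∈ NY := Subgroup.commutator_le_left _ _ hv
  refine Group.nilpotent_center_quotient_ind (P := fun Θ _ _ => ∀ τ : ℤ → Θ, ∃ X Y : Θ ≀ᵣ C,
    X.right = c ^ k ∧ Y.right = 1 ∧ (inl c : Θ ≀ᵣ C) ^ k = X * ev X Y v ∧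
      ∀ m ∈ s, (em k X Y (inl c) m).left 1 = τ m) Θ ?_ ?_
  · intro Θ _ _ τ
    refine ⟨(inl c : Θ ≀ᵣ C) ^ k, 1, ?_, rfl, ?_, fun m _ => Subsingleton.elim _ _⟩
    · rw [← map_pow]; rfl
    · ext q
      · exact Subsingleton.elim _ _
      · rw [mul_right, ev_right rfl hvN, mul_one]
  · clear! Θ
    intro Θ _ _ ih τ
    classical
    obtain ⟨Xb, Yb, hXb, hYb, hrel, hem⟩ := ih (fun m => (τ m : Θ ⧸ Subgroup.center Θ))
    have hsurj : ∀ q : Θ ⧸ Subgroup.center Θ, ∃ t : Θ, (t : Θ ⧸ Subgroup.center Θ) = q :=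
      fun q => QuotientGroup.mk_surjective q
    choose sec hsec using hsurj
    let X0 : Θ ≀ᵣ C := ⟨fun q => sec (Xb.left q), Xb.right⟩
    let Y0 : Θ ≀ᵣ C := ⟨fun q => sec (Yb.left q), Yb.right⟩
    let Z : Θ ≀ᵣ C := inl c
    have hX0 : wmap Θ C X0 = Xb := by
      ext q
      · exact hsec _
      · rfl
    have hY0 : wmap Θ C Y0 = Yb := by
      ext q
      · exact hsec _
      · rfl
    have hZ : wmap Θ C Z = inl c := by
      ext q
      · rfl
      · rfl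
    have hY0r : Y0 ∈ (rightHom : Θ ≀ᵣ C →* C).ker := hYb
    have hKB : (wmap Θ C).ker ≤ (rightHom : Θ ≀ᵣ C →* C).ker := fun a ha => (mem_ker_wmap.1 ha).1
    set d := X0 * ev X0 Y0 v * (Z ^ k)⁻¹ with hd
    have hdK : d ∈ (wmap Θ C).ker := by
      rw [MonoidHom.mem_ker, hd, map_mul, map_mul, map_ev, hX0, hY0, map_inv, map_pow, hZ, hrel,
        mul_inv_cancel]
    let X1 := d⁻¹ * X0
    have hX1 : wmap Θ C X1 = Xb := by
      change wmap Θ C (d⁻¹ * X0) = Xb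
      rw [map_mul, map_inv, MonoidHom.mem_ker.1 hdK, inv_one, one_mul, hX0]
    have hX1r : X1.right = c ^ k := by
      have : (wmap Θ C X1).right = c ^ k := by rw [hX1, hXb]
      exact this
    have hdiff : ∀ X X' Y Y' : Θ ≀ᵣ C, wmap Θ C X = wmap Θ C X' → wmap Θ C Y = wmap Θ C Y' →
        ∀ a, (ev X Y a)⁻¹ * ev X' Y' a ∈ (wmap Θ C).ker := by
      intro X X' Y Y' h1 h2 a
      rw [MonoidHom.mem_ker, map_mul, map_inv, map_ev, map_ev, h1, h2, inv_mul_cancel]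
    have e1 : ev X1 Y0 v = ev X0 Y0 v := by
      refine eq_on_nc (ev X0 Y0) (ev X1 Y0) (FreeGroup.of 1) (rightHom : Θ ≀ᵣ C →* C).ker (wmap Θ C).ker
        (fun b hb c hc => base_comm hb hc) ?_ ?_ ?_ v hvN
      · rw [ev_one, ev_one]
      · rw [ev_one]; exact hY0r
      · exact hdiff _ _ _ _ (hX0.trans hX1.symm) rfl
    have hrel1 : Z ^ k = X1 * ev X1 Y0 v := by
      rw [e1]
      change Z ^ k = d⁻¹ * X0 * ev X0 Y0 v
      rw [mul_assoc, eq_inv_mul_iff_mul_eq, hd]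
      group
    -- the correction
    let t : ℤ → Θ := fun m => (em k X1 Y0 Z m).left 1
    have ht : ∀ m ∈ s, (t m)⁻¹ * τ m ∈ Subgroup.center Θ := by
      intro m hm
      have h1 : (t m : Θ ⧸ Subgroup.center Θ) = (τ m : Θ ⧸ Subgroup.center Θ) := by
        rw [← hem m hm, ← hX1, ← hY0, ← hZ, ← map_em]
        rfl
      exact QuotientGroup.eq.1 h1
    let δ : C → Θ := fun q => if h : ∃ m ∈ s, (c ^ m)⁻¹ = q then (t h.choose)⁻¹ * τ h.choose else 1
    let Δ : Θ ≀ᵣ C := ⟨δ, 1⟩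
    have hΔK : Δ ∈ (wmap Θ C).ker := by
      rw [mem_ker_wmap]
      refine ⟨rfl, fun q => ?_⟩
      change δ q ∈ Subgroup.center Θ
      simp only [δ]
      split_ifs with h
      · exact ht _ h.choose_spec.1
      · exact one_mem _
    have hδ : ∀ m ∈ s, δ (c ^ m)⁻¹ = (t m)⁻¹ * τ m := by
      intro m hm
      have h : ∃ m' ∈ s, (c ^ m')⁻¹ = (c ^ m)⁻¹ := ⟨m, hm, rfl⟩
      simp only [δ]
      rw [dif_pos h]
      have : h.choose = m := hs _ h.choose_spec.1 _ hm (inv_injective h.choose_spec.2)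
      rw [this]
    let Y1 := Y0 * Δ
    have hY1 : wmap Θ C Y1 = wmap Θ C Y0 := by
      change wmap Θ C (Y0 * Δ) = _
      rw [map_mul, MonoidHom.mem_ker.1 hΔK, mul_one]
    have e2 : ev X1 Y1 v = ev X1 Y0 v := by
      refine eq_on_comm (ev X1 Y0) (ev X1 Y1) NY (rightHom : Θ ≀ᵣ C →* C).ker (wmap Θ C).ker hKB
        (fun b hb c hc => base_comm hb hc) ?_ ?_ v hv
      · intro n hn
        exact ev_right (X := X1) (Y := Y0) hY0r hn
      · intro n _
        exact hdiff _ _ _ _ rfl hY1.symm n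
    refine ⟨X1, Y1, hX1r, ?_, ?_, ?_⟩
    · change (Y0 * Δ).right = 1
      rw [mul_right]
      change Y0.right * 1 = 1
      rw [mul_one]; exact hY0r
    · rw [e2]; exact hrel1
    · intro m hm
      have h3 : em k X1 Y1 Z m = em k X1 Y0 Z m * (gm k X1 Z m * Δ * (gm k X1 Z m)⁻¹) := by
        simp only [em, Y1]
        group
      have h4 : (em k X1 Y0 Z m).right = 1 := by
        have : (rightHom : Θ ≀ᵣ C →* C) (em k X1 Y0 Z m) = 1 := by
          rw [em, map_mul, map_mul, map_inv, MonoidHom.mem_ker.1 hY0r, mul_one, mul_inv_cancel]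
        exact this
      change (em k X1 Y1 Z m).left 1 = τ m
      rw [h3, left_one_mul h4, conj_left hΔK, gm_right k X1 c hX1r]
      change t m * δ (c ^ m)⁻¹ = τ m
      rw [hδ m hm]
      group

end Pool.Agent.PFV
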